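import Mathlib
import Pool.Agent.H98R2.Ev.Defs

set_option autoImplicit false

/-!
Evasiveness of monotone graph properties which see only the sizes of the components of forests
(MP_257582_lc): definitions.
-/

namespace Pool.Agent.H371R2.CE

open Finset

section Chains

variable {α : Type} [DecidableEq α]

/-- alternating functions on lists -/
def Alt (g : List α → ℚ) : Prop :=
  ∀ (p q : List α) (a b : α), g (p ++ a :: b :: q) = - g (p ++ b :: a :: q)

/-- the boundary operator on functions on lists -/
def bd [Fintype α] (g : List α → ℚ) (l : List α) : ℚ := ∑ a : α, g (a :: l)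

/-- `g` is supported on lists whose underlying set is contained in `A` and belongs to `D` -/
def SuppOn (A : Finset α) (D : Finset α → Prop) (g : List α → ℚ) : Prop :=
  ∀ l, g l ≠ 0 → l.toFinset ⊆ A ∧ D l.toFinset

end Chains

section Growth

variable {V : Type} [DecidableEq V] {ι : Type} [DecidableEq ι]

/-- add the vertex `v` to the block with index `i` -/
def upd (blk : ι → Finset V) (i : ι) (v : V) : ι → Finset V :=
  Function.update blk i (insert v (blk i))

/-- `Gr x γ m blk L`: the list `L` of edges is obtained by attaching the vertices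
`x m, x (m+1), …` one after the other, each to some vertex of the block named by the
corresponding letter of `γ` (the blocks grow). -/
def Gr (x : ℕ → V) : List ι → ℕ → (ι → Finset V) → List (Sym2 V) → Prop
  | [], _, _, L => L = []
  | i :: γ, m, blk, L =>
      ∃ q ∈ blk i, ∃ L', L = s(x m, q) :: L' ∧ Gr x γ (m + 1) (upd blk i (x m)) L'

/-- the final blocks -/
def fb (x : ℕ → V) : List ι → ℕ → (ι → Finset V) → (ι → Finset V)
  | [], _, blk => blk
  | i :: γ, m, blk => fb x γ (m + 1) (upd blk i (x m))

/-- the sum of `u` over all growth lists -/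
noncomputable def SG (x : ℕ → V) : List ι → ℕ → (ι → Finset V) → (List (Sym2 V) → ℚ) → ℚ
  | [], _, _, u => u []
  | i :: γ, m, blk, u =>
      ∑ q ∈ blk i, SG x γ (m + 1) (upd blk i (x m)) (fun L => u (s(x m, q) :: L))

/-- `V` consists of the roots `r i` and of the `N` further vertices `x 0, …, x (N-1)` -/
structure Setup (V ι : Type) where
  r : ι → V
  x : ℕ → V
  N : ℕ
  r_inj : Function.Injective r
  x_inj : ∀ j j', j < N → j' < N → x j = x j' → j = j'
  x_ne_r : ∀ j i, j < N → x j ≠ r i
  cover : ∀ v, (∃ i, v = r i) ∨ ∃ j, j < N ∧ v = x j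

/-- the initial blocks: the roots -/
def blk0 (C : Setup V ι) : ι → Finset V := fun i => {C.r i}

/-- `u` changes its sign under the transposition of `x j` and `x (j+1)`, `m ≤ j` -/
def Anti (C : Setup V ι) (m : ℕ) (u : List (Sym2 V) → ℚ) : Prop :=
  ∀ j, m ≤ j → j + 1 < C.N → ∀ l,
    u (l.map (Sym2.map (Equiv.swap (C.x j) (C.x (j + 1))))) = - u l

/-- the edges of `l` join different non-root vertices to roots, `b i` of them to `r i` -/
def IsStar (C : Setup V ι) (b : ι → ℕ) (l : List (Sym2 V)) : Prop :=
  ∃ t : List (V × ι), l = t.map (fun a => s(a.1, C.r a.2)) ∧ (t.map Prod.fst).Nodup ∧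
    (∀ a ∈ t, ∀ i, a.1 ≠ C.r i) ∧ ∀ i, (t.map Prod.snd).count i = b i

/-- antisymmetrisation over the permutations fixing the roots -/
noncomputable def avg [Fintype V] (C : Setup V ι) (u : List (Sym2 V) → ℚ)
    (l : List (Sym2 V)) : ℚ := by
  classical exact
  ∑ σ ∈ (univ : Finset (Equiv.Perm V)).filter (fun σ => ∀ i, σ (C.r i) = C.r i),
    ((Equiv.Perm.sign σ : ℤ) : ℚ) * u (l.map (Sym2.map σ))

end Growth

section Graphs

variable {V : Type}

/-- the sizes of the connected components -/
noncomputable def sizes [Fintype V] (G : SimpleGraph V) : Multiset ℕ := by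
  classical exact
  ((@Finset.univ G.ConnectedComponent (Fintype.ofFinite _)).val.map
    (fun c => c.supp.ncard))

/-- the graph with edge set `S` -/
def gr (S : Finset (Sym2 V)) : SimpleGraph V := SimpleGraph.fromEdgeSet (S : Set (Sym2 V))

/-- each vertex `v` is joined to `f v` (if different); for idempotent `f` this is a disjoint
union of stars whose centres are the fixed points of `f` -/
def starG (f : V → V) : SimpleGraph V := SimpleGraph.fromRel (fun u v => f u = v)

/-- a forest with `k + 1` components which (unless `k = 0`) has an isolated vertex -/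
def Bad (k : ℕ) (G : SimpleGraph V) : Prop :=
  G.IsAcyclic ∧ Nat.card G.ConnectedComponent = k + 1 ∧ (k = 0 ∨ ∃ v, ∀ w, ¬ G.Adj v w)

end Graphs

/-- Every adaptive strategy for asking whether pairs are edges which asks fewer than
`n.choose 2` questions leaves two graphs, consistent with the same answers, exactly one of which
has the property (the form of the frozen statement of the problem). -/
def EvasiveQ {n : ℕ} (P : SimpleGraph (Fin n) → Prop) : Prop :=
  ∀ s : Finset (Sym2 (Fin n)) → SimpleGraph (Fin n) → Sym2 (Fin n),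
    (∀ (Q : Finset (Sym2 (Fin n))) (G H : SimpleGraph (Fin n)),
      (∀ e ∈ Q, (e ∈ G.edgeSet ↔ e ∈ H.edgeSet)) → s Q G = s Q H) →
    ∃ G H : SimpleGraph (Fin n),
      (∀ e ∈ (fun Q : Finset (Sym2 (Fin n)) => insert (s Q G) Q)^[n.choose 2 - 1]
        (∅ : Finset (Sym2 (Fin n))), (e ∈ G.edgeSet ↔ e ∈ H.edgeSet)) ∧ P G ∧ ¬ P H

end Pool.Agent.H371R2.CE
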