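import Mathlib
import Pool.Agent.H371R2.CE.Defs

set_option autoImplicit false

/-!
BLUEPRINT (statements with sorry; never import this file).
-/

namespace Pool.Agent.H371R2.CE

open Finset Pool.Agent.H98R2.Ev

section T1

variable {α : Type} [DecidableEq α]

theorem Alt.dup {g : List α → ℚ} (h : Alt g) (l : List α) (hl : ¬ l.Nodup) : g l = 0 := by
  sorry

theorem Alt.move {g : List α → ℚ} (h : Alt g) (p l q : List α) (a : α) :
    g (p ++ a :: (l ++ q)) = (-1) ^ l.length * g (p ++ (l ++ a :: q)) := by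
  sorry

theorem Alt.exch {g : List α → ℚ} (h : Alt g) (p l q : List α) (a b : α) :
    g (p ++ a :: (l ++ b :: q)) = - g (p ++ b :: (l ++ a :: q)) := by
  sorry

end T1

section T2

variable {α : Type} [DecidableEq α]

theorem ne_exact [Fintype α] {A : Finset α} {D : Finset α → Prop} (h : NE A D)
    (hdown : ∀ S T : Finset α, T ⊆ S → S ⊆ A → D S → D T) (c : List α → ℚ) (hc : Alt c)
    (hs : SuppOn A D c) (hb : ∀ l, bd c l = 0) :
    ∃ b : List α → ℚ, Alt b ∧ SuppOn A D b ∧ ∀ l, bd b l = c l := by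
  sorry

end T2

section T3

variable {V : Type} [DecidableEq V] {ι : Type} [DecidableEq ι]

theorem Gr.length (x : ℕ → V) (γ : List ι) (m : ℕ) (blk : ι → Finset V) (L : List (Sym2 V))
    (h : Gr x γ m blk L) : L.length = γ.length := by
  sorry

theorem SG_congr (x : ℕ → V) (γ : List ι) (m : ℕ) (blk : ι → Finset V)
    (u v : List (Sym2 V) → ℚ) (h : ∀ L, Gr x γ m blk L → u L = v L) :
    SG x γ m blk u = SG x γ m blk v := by
  sorry

theorem SG_sum (x : ℕ → V) (γ : List ι) (m : ℕ) (blk : ι → Finset V) {κ : Type}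
    (s : Finset κ) (f : κ → List (Sym2 V) → ℚ) :
    SG x γ m blk (fun L => ∑ k ∈ s, f k L) = ∑ k ∈ s, SG x γ m blk (f k) := by
  sorry

theorem SG_mul (x : ℕ → V) (γ : List ι) (m : ℕ) (blk : ι → Finset V) (c : ℚ)
    (u : List (Sym2 V) → ℚ) :
    SG x γ m blk (fun L => c * u L) = c * SG x γ m blk u := by
  sorry

theorem SG_append (x : ℕ → V) (γ δ : List ι) (m : ℕ) (blk : ι → Finset V)
    (u : List (Sym2 V) → ℚ) :
    SG x (γ ++ δ) m blk u =
      SG x γ m blk (fun L => SG x δ (m + γ.length) (fb x γ m blk) (fun L' => u (L ++ L'))) := by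
  sorry

end T3

section T4

variable {V : Type} [DecidableEq V] {ι : Type} [DecidableEq ι]

/-- relabelling the blocks by a permutation which fixes the vertices still to come -/
theorem SG_relabel (C : Setup V ι) (τ : Equiv.Perm V) (γ : List ι) (m : ℕ)
    (hm : m + γ.length ≤ C.N) (hτ : ∀ j, m ≤ j → j < C.N → τ (C.x j) = C.x j)
    (blk : ι → Finset V) (u : List (Sym2 V) → ℚ) :
    SG C.x γ m (fun i => (blk i).image τ) u =
      SG C.x γ m blk (fun L => u (L.map (Sym2.map τ))) := by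
  sorry

theorem SG_perm (C : Setup V ι) {γ γ' : List ι} (h : γ.Perm γ') (m : ℕ)
    (blk : ι → Finset V) (hm : m + γ.length ≤ C.N)
    (hblk : ∀ i, ∀ v ∈ blk i, ∀ j, m ≤ j → j < C.N → v ≠ C.x j)
    (u : List (Sym2 V) → ℚ) (hu : Alt u) (ha : Anti C m u) :
    SG C.x γ m blk u = SG C.x γ' m blk u := by
  sorry

end T4

section T5

variable {V : Type} [DecidableEq V] {ι : Type} [DecidableEq ι]

theorem main_rel [Fintype V] [Fintype ι] (C : Setup V ι) (β : List ι)
    (hβ : β.length + 1 = C.N) (u : List (Sym2 V) → ℚ) (hu : Alt u)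
    (hdiag : ∀ v L, u (s(v, v) :: L) = 0)
    (hcross : ∀ L, Gr C.x β 0 (blk0 C) L → ∀ i i', i ≠ i' →
      ∀ v ∈ fb C.x β 0 (blk0 C) i, ∀ w ∈ fb C.x β 0 (blk0 C) i', u (s(v, w) :: L) = 0) :
    SG C.x β 0 (blk0 C) (bd u) =
      (-1) ^ β.length * ∑ i, SG C.x (β ++ [i]) 0 (blk0 C) u := by
  sorry

end T5

section T6

variable {V : Type} [DecidableEq V] {ι : Type} [DecidableEq ι]

theorem cycle_exists [Fintype V] [Fintype ι] (C : Setup V ι) (b : ι → ℕ)
    (hb : ∑ i, b i + 1 = C.N) :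
    ∃ (z : List (Sym2 V) → ℚ) (κ : ℚ), κ ≠ 0 ∧ Alt z ∧ (∀ l, bd z l = 0) ∧
      (∀ σ : Equiv.Perm V, (∀ i, σ (C.r i) = C.r i) → ∀ l,
        z (l.map (Sym2.map σ)) = ((Equiv.Perm.sign σ : ℤ) : ℚ) * z l) ∧
      (∀ l, z l ≠ 0 → IsStar C b l) ∧
      (∀ γ : List ι, γ.length + 1 = C.N →
        SG C.x γ 0 (blk0 C) z = if (∀ i, γ.count i = b i) then κ else 0) := by
  sorry

end T6

section T7

variable {V : Type} [DecidableEq V] {ι : Type} [DecidableEq ι]

theorem avg_alt [Fintype V] (C : Setup V ι) {u : List (Sym2 V) → ℚ} (h : Alt u) :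
    Alt (avg C u) := by
  sorry

theorem avg_anti [Fintype V] (C : Setup V ι) (u : List (Sym2 V) → ℚ) :
    Anti C 0 (avg C u) := by
  sorry

theorem avg_bd [Fintype V] (C : Setup V ι) (u : List (Sym2 V) → ℚ) (l : List (Sym2 V)) :
    bd (avg C u) l = avg C (bd u) l := by
  sorry

theorem avg_zero [Fintype V] (C : Setup V ι) (u : List (Sym2 V) → ℚ) (l : List (Sym2 V))
    (h : ∀ σ : Equiv.Perm V, (∀ i, σ (C.r i) = C.r i) → u (l.map (Sym2.map σ)) = 0) :
    avg C u l = 0 := by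
  sorry

theorem avg_sign [Fintype V] (C : Setup V ι) (z : List (Sym2 V) → ℚ)
    (h : ∀ σ : Equiv.Perm V, (∀ i, σ (C.r i) = C.r i) → ∀ l,
        z (l.map (Sym2.map σ)) = ((Equiv.Perm.sign σ : ℤ) : ℚ) * z l) :
    ∃ κ : ℚ, κ ≠ 0 ∧ ∀ l, avg C z l = κ * z l := by
  sorry

end T7

section T8

theorem lin_contra {ι : Type} [Fintype ι] [DecidableEq ι] [Nonempty ι] (M : ℕ) (b0 : ι → ℕ)
    (hb0 : ∑ i, b0 i = M) (R : (ι → ℕ) → ℚ) (κ : ℚ)
    (hsys : ∀ b : ι → ℕ, ∑ i, b i = M →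
      ∑ i, R (b + Pi.single i 1) = if b = b0 then κ else 0)
    (hzero : ∀ a : ι → ℕ, ∑ i, a i = M + 1 → (∃ i, a i = 0) → R a = 0)
    (h1 : Fintype.card ι = 1 → ∀ a : ι → ℕ, ∑ i, a i = M + 1 → R a = 0) : κ = 0 := by
  sorry

end T8

section T9

variable {V : Type} [Fintype V]

theorem sizes_of_class [DecidableEq V] (G : SimpleGraph V) (f : V → V)
    (hf : ∀ u v, G.Reachable u v ↔ f u = f v) :
    sizes G = (univ.image f).val.map (fun w => (univ.filter (fun v => f v = w)).card) := by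
  sorry

theorem sizes_card (G : SimpleGraph V) : (sizes G).card = Nat.card G.ConnectedComponent := by
  sorry

theorem sizes_sum (G : SimpleGraph V) : (sizes G).sum = Fintype.card V := by
  sorry

theorem sizes_zero (G : SimpleGraph V) : 0 ∉ sizes G := by
  sorry

theorem one_mem_sizes (G : SimpleGraph V) : 1 ∈ sizes G ↔ ∃ v, ∀ w, ¬ G.Adj v w := by
  sorry

theorem sizes_connected (G : SimpleGraph V) (h : G.Connected) : sizes G = {Fintype.card V} := by
  sorry

end T9

section T10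

variable {V : Type} [Fintype V] [DecidableEq V]

theorem add_edge_acyclic (G : SimpleGraph V) (hG : G.IsAcyclic) (a b : V)
    (hab : ¬ G.Reachable a b) :
    (G ⊔ SimpleGraph.fromEdgeSet {s(a, b)}).IsAcyclic := by
  sorry

theorem add_edge_class (G : SimpleGraph V) (f : V → V)
    (hf : ∀ u v, G.Reachable u v ↔ f u = f v) (a b : V) :
    ∀ u v, (G ⊔ SimpleGraph.fromEdgeSet {s(a, b)}).Reachable u v ↔
      (if f u = f b then f a else f u) = (if f v = f b then f a else f v) := by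
  sorry

theorem gr_insert (S : Finset (Sym2 V)) (e : Sym2 V) :
    gr (insert e S) = gr S ⊔ SimpleGraph.fromEdgeSet {e} := by
  sorry

theorem gr_image (S : Finset (Sym2 V)) (σ : Equiv.Perm V) :
    gr (S.image (Sym2.map σ)) = (gr S).map σ.toEmbedding := by
  sorry

theorem bad_map (k : ℕ) (G : SimpleGraph V) (σ : Equiv.Perm V) (h : Bad k G) :
    Bad k (G.map σ.toEmbedding) := by
  sorry

theorem starG_acyclic (f : V → V) (hf : ∀ v, f (f v) = f v) : (starG f).IsAcyclic := by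
  sorry

theorem starG_class (f : V → V) (hf : ∀ v, f (f v) = f v) (u v : V) :
    (starG f).Reachable u v ↔ f u = f v := by
  sorry

end T10

section T11

variable {V : Type} [DecidableEq V] {ι : Type} [DecidableEq ι]

/-- description of the final blocks -/
theorem mem_fb (C : Setup V ι) (γ : List ι) (hγ : γ.length ≤ C.N) (i : ι) (v : V) :
    v ∈ fb C.x γ 0 (blk0 C) i ↔ v = C.r i ∨ ∃ j, γ[j]? = some i ∧ v = C.x j := by
  sorry

theorem growth_acyclic [Fintype V] (C : Setup V ι) (γ : List ι) (hγ : γ.length ≤ C.N)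
    (L : List (Sym2 V)) (hL : Gr C.x γ 0 (blk0 C) L) : (gr L.toFinset).IsAcyclic := by
  sorry

theorem growth_reach [Fintype V] (C : Setup V ι) (γ : List ι) (hγ : γ.length ≤ C.N)
    (L : List (Sym2 V)) (hL : Gr C.x γ 0 (blk0 C) L) (u v : V) :
    (gr L.toFinset).Reachable u v ↔
      u = v ∨ ∃ i, u ∈ fb C.x γ 0 (blk0 C) i ∧ v ∈ fb C.x γ 0 (blk0 C) i := by
  sorry

end T11

section T12

variable {V : Type} [DecidableEq V] {ι : Type} [DecidableEq ι]

theorem bad_cross [Fintype V] [Fintype ι] (C : Setup V ι) (k : ℕ)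
    (hk : Fintype.card ι = k + 1) (β : List ι) (hβ : β.length + 1 = C.N)
    (L : List (Sym2 V)) (hL : Gr C.x β 0 (blk0 C) L) (i i' : ι) (hi : i ≠ i') (v w : V)
    (hv : v ∈ fb C.x β 0 (blk0 C) i) (hw : w ∈ fb C.x β 0 (blk0 C) i') :
    Bad k (gr (s(v, w) :: L).toFinset) := by
  sorry

theorem bad_iso [Fintype V] [Fintype ι] (C : Setup V ι) (k : ℕ)
    (hk : Fintype.card ι = k + 1) (γ : List ι) (hγ : γ.length = C.N)
    (L : List (Sym2 V)) (hL : Gr C.x γ 0 (blk0 C) L) (h : k = 0 ∨ ∃ i, i ∉ γ) :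
    Bad k (gr L.toFinset) := by
  sorry

end T12

section T13

variable {V : Type} [DecidableEq V] {ι : Type} [DecidableEq ι]

theorem star_list [Fintype V] [Fintype ι] (C : Setup V ι) (b : ι → ℕ)
    (hb : ∑ i, b i + 1 = C.N) (l : List (Sym2 V)) (h : IsStar C b l) :
    (∀ e ∈ l, ¬ e.IsDiag) ∧ ∃ f : V → V, (∀ v, f (f v) = f v) ∧
      gr l.toFinset = starG f ∧
      sizes (starG f) = 1 ::ₘ (univ : Finset ι).val.map (fun i => b i + 1) := by
  sorry

end T13

section T14

theorem ne_sym2 (n : ℕ) (P : SimpleGraph (Fin n) → Prop)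
    (h : NE (univ : Finset (EV (Fin n))) (fun S => ¬ P (toG S))) :
    NE ((univ : Finset (Sym2 (Fin n))).filter (fun e => ¬ e.IsDiag)) (fun S => ¬ P (gr S)) := by
  sorry

end T14

end Pool.Agent.H371R2.CE
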