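import Mathlib
import Pool.Agent.H371R2.CE.Defs

set_option autoImplicit false

/-! Task T2 (helper862): a non-evasive family is exact. -/

namespace Pool.Agent.H371R2.CE

open Finset Pool.Agent.H98R2.Ev

section T2

variable {α : Type} [DecidableEq α]

/-- alternating insertion of `x` (dual form) -/
def t2_wd (x : α) : List α → (List α → ℚ) → ℚ
  | [], _ => 0
  | y :: l, g => (if y = x then g l else 0) - t2_wd x l (fun l' => g (y :: l'))

theorem t2_wd_zero (x : α) (l : List α) : t2_wd x l (fun _ => 0) = 0 := by
  induction l with
  | nil => rfl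
  | cons y l ih => simp [t2_wd, ih]

theorem t2_wd_neg (x : α) (l : List α) (g : List α → ℚ) :
    t2_wd x l (fun l' => - g l') = - t2_wd x l g := by
  induction l generalizing g with
  | nil => simp [t2_wd]
  | cons y l ih =>
    simp only [t2_wd]
    rw [ih]
    split_ifs <;> ring

theorem t2_wd_sum (x : α) {κ : Type} (s : Finset κ) (l : List α) (f : κ → List α → ℚ) :
    t2_wd x l (fun l' => ∑ k ∈ s, f k l') = ∑ k ∈ s, t2_wd x l (f k) := by
  induction l generalizing f with
  | nil => simp [t2_wd]
  | cons y l ih =>
    simp only [t2_wd]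
    rw [ih, Finset.sum_sub_distrib]
    split_ifs <;> simp

omit [DecidableEq α] in
theorem t2_alt_cons {g : List α → ℚ} (h : Alt g) (c : α) : Alt (fun l => g (c :: l)) :=
  fun p q a b => h (c :: p) q a b

theorem t2_wd_alt (x : α) {g : List α → ℚ} (h : Alt g) : Alt (fun l => t2_wd x l g) := by
  intro p q a b
  change t2_wd x (p ++ a :: b :: q) g = - t2_wd x (p ++ b :: a :: q) g
  induction p generalizing g with
  | nil =>
    simp only [List.nil_append, t2_wd]
    have h1 : t2_wd x q (fun l' => g (a :: b :: l')) = - t2_wd x q (fun l' => g (b :: a :: l')) := by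
      rw [← t2_wd_neg]
      congr 1
      funext l'
      exact h [] l' a b
    rw [h1]
    ring
  | cons c p ih =>
    simp only [List.cons_append, t2_wd]
    rw [ih (t2_alt_cons h c), h p q a b]
    split_ifs <;> ring

theorem t2_bd_wd [Fintype α] (x : α) (g : List α → ℚ) (l : List α) :
    bd (fun l' => t2_wd x l' g) l = g l - t2_wd x l (bd g) := by
  have h1 : t2_wd x l (bd g) = ∑ a : α, t2_wd x l (fun l' => g (a :: l')) :=
    t2_wd_sum x univ l (fun a l' => g (a :: l'))
  have h2 : bd (fun l' => t2_wd x l' g) l =
      ∑ a : α, ((if a = x then g l else 0) - t2_wd x l (fun l' => g (a :: l'))) := rfl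
  rw [h2, Finset.sum_sub_distrib, h1]
  simp

theorem t2_wd_ne {x : α} {l : List α} {g : List α → ℚ} (h : t2_wd x l g ≠ 0) :
    ∃ l₁ l₂, l = l₁ ++ x :: l₂ ∧ g (l₁ ++ l₂) ≠ 0 := by
  induction l generalizing g with
  | nil => exact absurd rfl h
  | cons y l ih =>
    simp only [t2_wd] at h
    by_cases h1 : t2_wd x l (fun l' => g (y :: l')) = 0
    · rw [h1, sub_zero] at h
      by_cases hy : y = x
      · rw [if_pos hy] at h
        exact ⟨[], l, by rw [hy]; rfl, h⟩
      · rw [if_neg hy] at h
        exact absurd rfl h
    · obtain ⟨l₁, l₂, h2, h3⟩ := ih h1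
      exact ⟨y :: l₁, l₂, by rw [h2]; rfl, h3⟩

omit [DecidableEq α] in
theorem t2_self {c : List α → ℚ} (h : Alt c) (x : α) (l : List α) : c (x :: x :: l) = 0 := by
  have h1 := h [] l x x
  simp only [List.nil_append] at h1
  linarith

theorem t2_dup {c : List α → ℚ} (h : Alt c) {x : α} {l : List α} (hx : x ∈ l) :
    c (x :: l) = 0 := by
  induction l generalizing c with
  | nil => exact absurd hx List.not_mem_nil
  | cons y l ih =>
    by_cases hy : y = x
    · rw [hy]
      exact t2_self h x l
    · have hx' : x ∈ l := by
        rcases List.mem_cons.1 hx with h1 | h1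
        · exact absurd h1.symm hy
        · exact h1
      have h1 := h [] l x y
      simp only [List.nil_append] at h1
      rw [h1, ih (t2_alt_cons h y) hx', neg_zero]

theorem t2_wd_cons {c : List α → ℚ} (h : Alt c) (x : α) (l : List α) :
    t2_wd x l (fun l' => c (x :: l')) = if x ∈ l then c l else 0 := by
  induction l generalizing c with
  | nil => simp [t2_wd]
  | cons y l ih =>
    simp only [t2_wd]
    by_cases hy : y = x
    · subst hy
      have h1 : (fun l' => c (y :: y :: l')) = fun _ => 0 := by
        funext l'
        exact t2_self h y l'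
      rw [h1, t2_wd_zero, if_pos rfl, if_pos List.mem_cons_self, sub_zero]
    · have h1 : (fun l' => c (x :: y :: l')) = fun l' => - c (y :: x :: l') := by
        funext l'
        exact h [] l' x y
      rw [h1, t2_wd_neg, ih (t2_alt_cons h y), if_neg hy, zero_sub, neg_neg]
      have h2 : x ∈ y :: l ↔ x ∈ l := by
        rw [List.mem_cons]
        constructor
        · rintro (h3 | h3)
          · exact absurd h3.symm hy
          · exact h3
        · exact Or.inr
      by_cases hx : x ∈ l
      · rw [if_pos hx, if_pos (h2.2 hx)]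
      · rw [if_neg hx, if_neg (fun h3 => hx (h2.1 h3))]

theorem ne_exact [Fintype α] {A : Finset α} {D : Finset α → Prop} (h : NE A D)
    (hdown : ∀ S T : Finset α, T ⊆ S → S ⊆ A → D S → D T) (c : List α → ℚ) (hc : Alt c)
    (hs : SuppOn A D c) (hb : ∀ l, bd c l = 0) :
    ∃ b : List α → ℚ, Alt b ∧ SuppOn A D b ∧ ∀ l, bd b l = c l := by
  induction h generalizing c with
  | const A D hA h =>
    rcases h with h | h
    · obtain ⟨x, hx⟩ := hA
      refine ⟨fun l => t2_wd x l c, t2_wd_alt x hc, ?_, ?_⟩
      · intro l hl
        obtain ⟨l₁, l₂, h1, h2⟩ := t2_wd_ne hl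
        have h3 := (hs _ h2).1
        have h4 : l.toFinset ⊆ A := by
          intro z hz
          rw [h1] at hz
          simp only [List.toFinset_append, List.toFinset_cons, Finset.mem_union,
            Finset.mem_insert] at hz
          simp only [List.toFinset_append] at h3
          rcases hz with hz | hz | hz
          · exact h3 (Finset.mem_union_left _ hz)
          · rw [hz]; exact hx
          · exact h3 (Finset.mem_union_right _ hz)
        exact ⟨h4, h _ h4⟩
      · intro l
        rw [t2_bd_wd]
        have h1 : bd c = fun _ => 0 := funext hb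
        rw [h1, t2_wd_zero, sub_zero]
    · have h0 : ∀ l, c l = 0 := by
        intro l
        by_contra hl
        obtain ⟨h1, h2⟩ := hs l hl
        exact h _ h1 h2
      refine ⟨fun _ => 0, ?_, ?_, ?_⟩
      · intro p q a b
        simp
      · intro l hl
        exact absurd rfl hl
      · intro l
        rw [h0]
        simp [bd]
  | node A D x hx h0 h1 ih0 ih1 =>
    have halt1 : Alt (fun l => c (x :: l)) := t2_alt_cons hc x
    have hbd1 : ∀ l, bd (fun l => c (x :: l)) l = 0 := by
      intro l
      have h2 : bd (fun l => c (x :: l)) l = - bd c (x :: l) := by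
        simp only [bd]
        rw [← Finset.sum_neg_distrib]
        exact Finset.sum_congr rfl (fun a _ => hc [] l x a)
      rw [h2, hb, neg_zero]
    have hs1 : SuppOn (A.erase x) (fun S => D (insert x S)) (fun l => c (x :: l)) := by
      intro l hl
      obtain ⟨h2, h3⟩ := hs _ hl
      rw [List.toFinset_cons] at h2 h3
      refine ⟨?_, h3⟩
      intro z hz
      refine Finset.mem_erase.2 ⟨?_, h2 (Finset.mem_insert_of_mem hz)⟩
      rintro rfl
      exact hl (t2_dup hc (List.mem_toFinset.1 hz))
    obtain ⟨b₁, hb₁a, hb₁s, hb₁⟩ := ih1 (by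
      intro S T hTS hSA hD
      refine hdown (insert x S) (insert x T) (Finset.insert_subset_insert x hTS) ?_ hD
      intro z hz
      rcases Finset.mem_insert.1 hz with rfl | hz
      · exact hx
      · exact Finset.mem_of_mem_erase (hSA hz)) _ halt1 hs1 hbd1
    have hins : ∀ l : List α, l.toFinset ⊆ A.erase x → insert x l.toFinset ⊆ A := by
      intro l hl z hz
      rcases Finset.mem_insert.1 hz with rfl | hz
      · exact hx
      · exact Finset.mem_of_mem_erase (hl hz)
    have halt0 : Alt (fun l => (if x ∈ l then 0 else c l) + b₁ l) := by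
      intro p q a b
      have h2 : x ∈ p ++ a :: b :: q ↔ x ∈ p ++ b :: a :: q := by
        simp only [List.mem_append, List.mem_cons]
        tauto
      simp only
      rw [hb₁a p q a b, hc p q a b]
      by_cases h3 : x ∈ p ++ a :: b :: q
      · rw [if_pos h3, if_pos (h2.1 h3)]
        ring
      · rw [if_neg h3, if_neg (fun h4 => h3 (h2.2 h4))]
        ring
    have hs0 : SuppOn (A.erase x) D (fun l => (if x ∈ l then 0 else c l) + b₁ l) := by
      intro l hl
      by_cases h2 : b₁ l = 0
      · simp only [h2, add_zero] at hl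
        by_cases h3 : x ∈ l
        · rw [if_pos h3] at hl
          exact absurd rfl hl
        · rw [if_neg h3] at hl
          obtain ⟨h4, h5⟩ := hs l hl
          refine ⟨?_, h5⟩
          intro z hz
          refine Finset.mem_erase.2 ⟨?_, h4 hz⟩
          rintro rfl
          exact h3 (List.mem_toFinset.1 hz)
      · obtain ⟨h3, h4⟩ := hb₁s l h2
        exact ⟨h3, hdown _ _ (Finset.subset_insert _ _) (hins l h3) h4⟩
    have hbd0 : ∀ l, bd (fun l => (if x ∈ l then 0 else c l) + b₁ l) l = 0 := by
      intro l
      have h2 : bd (fun l => (if x ∈ l then 0 else c l) + b₁ l) l =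
          (∑ a : α, if x ∈ a :: l then 0 else c (a :: l)) + bd b₁ l := by
        simp only [bd]
        rw [Finset.sum_add_distrib]
      rw [h2, hb₁]
      by_cases h3 : x ∈ l
      · rw [t2_dup hc h3, add_zero]
        refine Finset.sum_eq_zero (fun a _ => ?_)
        rw [if_pos (List.mem_cons_of_mem _ h3)]
      · have h4 : (∑ a : α, if x ∈ a :: l then 0 else c (a :: l)) = bd c l - c (x :: l) := by
          have h5 : c (x :: l) = ∑ a : α, if a = x then c (a :: l) else 0 := by
            simp
          rw [h5, bd, ← Finset.sum_sub_distrib]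
          refine Finset.sum_congr rfl (fun a _ => ?_)
          by_cases hax : a = x
          · rw [if_pos hax, hax, if_pos List.mem_cons_self, sub_self]
          · rw [if_neg hax, if_neg, sub_zero]
            rw [List.mem_cons]
            rintro (h6 | h6)
            · exact hax h6.symm
            · exact h3 h6
        rw [h4, hb]
        ring
    obtain ⟨b₀, hb₀a, hb₀s, hb₀⟩ := ih0 (by
      intro S T hTS hSA hD
      exact hdown S T hTS (hSA.trans (Finset.erase_subset _ _)) hD) _ halt0 hs0 hbd0
    refine ⟨fun l => b₀ l - t2_wd x l b₁, ?_, ?_, ?_⟩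
    · intro p q a b
      have h2 := t2_wd_alt x hb₁a p q a b
      simp only at h2 ⊢
      rw [hb₀a p q a b, h2]
      ring
    · intro l hl
      by_cases h2 : t2_wd x l b₁ = 0
      · simp only [h2, sub_zero] at hl
        obtain ⟨h3, h4⟩ := hb₀s l hl
        exact ⟨h3.trans (Finset.erase_subset _ _), h4⟩
      · obtain ⟨l₁, l₂, h3, h4⟩ := t2_wd_ne h2
        obtain ⟨h5, h6⟩ := hb₁s _ h4
        have h7 : l.toFinset = insert x (l₁ ++ l₂).toFinset := by
          rw [h3]
          ext z
          simp only [List.toFinset_append, List.toFinset_cons, Finset.mem_union,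
            Finset.mem_insert]
          tauto
        rw [h7]
        exact ⟨hins _ h5, h6⟩
    · intro l
      have h2 : bd (fun l => b₀ l - t2_wd x l b₁) l =
          bd b₀ l - bd (fun l' => t2_wd x l' b₁) l := by
        simp only [bd]
        rw [Finset.sum_sub_distrib]
      have h3 : bd b₁ = fun l' => c (x :: l') := funext hb₁
      rw [h2, hb₀, t2_bd_wd, h3, t2_wd_cons hc]
      by_cases h4 : x ∈ l
      · rw [if_pos h4, if_pos h4]
        ring
      · rw [if_neg h4, if_neg h4]
        ring

end T2

end Pool.Agent.H371R2.CE
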