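import Mathlib
import Pool.Agent.H371R2.CE.Defs

set_option autoImplicit false

/-! Task T3: basic lemmas on growth sums. -/

namespace Pool.Agent.H371R2.CE

open Finset Pool.Agent.H98R2.Ev

section T3

variable {V : Type} [DecidableEq V] {ι : Type} [DecidableEq ι]

theorem Gr.length (x : ℕ → V) (γ : List ι) (m : ℕ) (blk : ι → Finset V) (L : List (Sym2 V))
    (h : Gr x γ m blk L) : L.length = γ.length := by
  induction γ generalizing m blk L with
  | nil => 
    have h' : L = [] := h
    rw [h']; rfl
  | cons i γ ih =>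
    obtain ⟨q, _, L', rfl, hL'⟩ := h
    rw [List.length_cons, List.length_cons, ih _ _ _ hL']

theorem SG_congr (x : ℕ → V) (γ : List ι) (m : ℕ) (blk : ι → Finset V)
    (u v : List (Sym2 V) → ℚ) (h : ∀ L, Gr x γ m blk L → u L = v L) :
    SG x γ m blk u = SG x γ m blk v := by
  induction γ generalizing m blk u v with
  | nil => exact h [] rfl
  | cons i γ ih =>
    simp only [SG]
    refine Finset.sum_congr rfl fun q hq => ?_
    exact ih _ _ _ _ fun L hL => h _ ⟨q, hq, L, rfl, hL⟩

theorem SG_sum (x : ℕ → V) (γ : List ι) (m : ℕ) (blk : ι → Finset V) {κ : Type}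
    (s : Finset κ) (f : κ → List (Sym2 V) → ℚ) :
    SG x γ m blk (fun L => ∑ k ∈ s, f k L) = ∑ k ∈ s, SG x γ m blk (f k) := by
  induction γ generalizing m blk f with
  | nil => rfl
  | cons i γ ih =>
    simp only [SG]
    rw [Finset.sum_comm]
    refine Finset.sum_congr rfl fun q _ => ?_
    exact ih _ _ (fun k L => f k (s(x m, q) :: L))

theorem SG_mul (x : ℕ → V) (γ : List ι) (m : ℕ) (blk : ι → Finset V) (c : ℚ)
    (u : List (Sym2 V) → ℚ) :
    SG x γ m blk (fun L => c * u L) = c * SG x γ m blk u := by
  induction γ generalizing m blk u with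
  | nil => rfl
  | cons i γ ih =>
    simp only [SG]
    rw [Finset.mul_sum]
    refine Finset.sum_congr rfl fun q _ => ?_
    exact ih _ _ (fun L => u (s(x m, q) :: L))

theorem SG_append (x : ℕ → V) (γ δ : List ι) (m : ℕ) (blk : ι → Finset V)
    (u : List (Sym2 V) → ℚ) :
    SG x (γ ++ δ) m blk u =
      SG x γ m blk (fun L => SG x δ (m + γ.length) (fb x γ m blk) (fun L' => u (L ++ L'))) := by
  induction γ generalizing m blk u with
  | nil => rfl
  | cons i γ ih =>
    simp only [List.cons_append, SG, fb]
    refine Finset.sum_congr rfl fun q _ => ?_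
    rw [ih]
    have : m + 1 + γ.length = m + (i :: γ).length := by rw [List.length_cons]; omega
    rw [this]

end T3

end Pool.Agent.H371R2.CE
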