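import Mathlib
import Pool.Agent.H371R2.CE.Defs

set_option autoImplicit false

/-!
T4: relabelling the blocks; growth sums do not depend on the order of the letters.
-/

namespace Pool.Agent.H371R2.CE

open Finset

section T4

variable {V : Type} [DecidableEq V] {ι : Type} [DecidableEq ι]

theorem upd_image (τ : Equiv.Perm V) (blk : ι → Finset V) (i : ι) (v : V) :
    upd (fun i => (blk i).image τ) i (τ v) = fun j => (upd blk i v j).image τ := by
  funext j
  unfold upd
  by_cases h : j = i
  · subst h
    simp [Finset.image_insert]
  · simp [Function.update_of_ne h]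

/-- relabelling the blocks by a permutation which fixes the vertices still to come -/
theorem SG_relabel (C : Setup V ι) (τ : Equiv.Perm V) (γ : List ι) (m : ℕ)
    (hm : m + γ.length ≤ C.N) (hτ : ∀ j, m ≤ j → j < C.N → τ (C.x j) = C.x j)
    (blk : ι → Finset V) (u : List (Sym2 V) → ℚ) :
    SG C.x γ m (fun i => (blk i).image τ) u =
      SG C.x γ m blk (fun L => u (L.map (Sym2.map τ))) := by
  induction γ generalizing m blk u with
  | nil => simp [SG]
  | cons i γ ih =>
    have hm' : m + 1 + γ.length ≤ C.N := by
      simp only [List.length_cons] at hm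
      omega
    simp only [SG]
    rw [Finset.sum_image (fun a _ b _ h => τ.injective h)]
    refine Finset.sum_congr rfl fun q _ => ?_
    have hx : τ (C.x m) = C.x m := hτ m le_rfl (by omega)
    have e := upd_image τ blk i (C.x m)
    rw [hx] at e
    rw [e, ih (m + 1) hm' (fun j h1 h2 => hτ j (by omega) h2)]
    congr 1
    funext L
    simp [hx]

theorem upd_mem {blk : ι → Finset V} {i j : ι} {v w : V} (h : w ∈ upd blk i v j) :
    w = v ∨ w ∈ blk j := by
  unfold upd at h
  by_cases hj : j = i
  · subst hj
    simpa using h
  · rw [Function.update_of_ne hj] at h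
    exact Or.inr h

theorem SG_perm (C : Setup V ι) {γ γ' : List ι} (h : γ.Perm γ') (m : ℕ)
    (blk : ι → Finset V) (hm : m + γ.length ≤ C.N)
    (hblk : ∀ i, ∀ v ∈ blk i, ∀ j, m ≤ j → j < C.N → v ≠ C.x j)
    (u : List (Sym2 V) → ℚ) (hu : Alt u) (ha : Anti C m u) :
    SG C.x γ m blk u = SG C.x γ' m blk u := by
  induction h generalizing m blk u with
  | nil => rfl
  | @cons i γ₁ γ₂ _ ih =>
    have hm' : m + 1 + γ₁.length ≤ C.N := by
      simp only [List.length_cons] at hm
      omega
    simp only [SG]
    refine Finset.sum_congr rfl fun q hq => ?_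
    refine ih (m + 1) _ hm' ?_ _ ?_ ?_
    · intro i' v hv j hj hjN
      rcases upd_mem hv with rfl | hv
      · intro he
        have := C.x_inj m j (by omega) hjN he
        omega
      · exact hblk i' v hv j (by omega) hjN
    · intro p q' a b
      have := hu (s(C.x m, q) :: p) q' a b
      simpa using this
    · intro j hj hjN l
      have h1 := ha j (by omega) hjN (s(C.x m, q) :: l)
      have e1 : Equiv.swap (C.x j) (C.x (j + 1)) (C.x m) = C.x m := by
        apply Equiv.swap_apply_of_ne_of_ne
        · intro he
          have := C.x_inj m j (by omega) (by omega) he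
          omega
        · intro he
          have := C.x_inj m (j + 1) (by omega) (by omega) he
          omega
      have e2 : Equiv.swap (C.x j) (C.x (j + 1)) q = q := by
        apply Equiv.swap_apply_of_ne_of_ne
        · exact hblk i q hq j (by omega) (by omega)
        · exact hblk i q hq (j + 1) (by omega) (by omega)
      rw [List.map_cons, Sym2.map_mk, e1, e2] at h1
      exact h1
  | @swap i i' γ₁ =>
    by_cases hii : i' = i
    · subst hii
      rfl
    have hm' : m + 2 + γ₁.length ≤ C.N := by
      simp only [List.length_cons] at hm
      omega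
    simp only [SG]
    have hb1 : upd blk i' (C.x m) i = blk i := by
      unfold upd
      exact Function.update_of_ne (fun h => hii h.symm) _ _
    have hb2 : upd blk i (C.x m) i' = blk i' := by
      unfold upd
      exact Function.update_of_ne hii _ _
    rw [hb1, hb2, Finset.sum_comm]
    refine Finset.sum_congr rfl fun q hq => Finset.sum_congr rfl fun q' hq' => ?_
    set τ : Equiv.Perm V := Equiv.swap (C.x m) (C.x (m + 1)) with hτ
    have hfix : ∀ j, ∀ v ∈ blk j, τ v = v := fun j v hv =>
      Equiv.swap_apply_of_ne_of_ne (hblk j v hv m le_rfl (by omega))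
        (hblk j v hv (m + 1) (by omega) (by omega))
    have himg : (fun j => (blk j).image τ) = blk := by
      funext j
      ext v
      simp only [Finset.mem_image]
      constructor
      · rintro ⟨w, hw, rfl⟩
        rw [hfix j w hw]
        exact hw
      · intro hv
        exact ⟨v, hv, hfix j v hv⟩
    have t0 : τ (C.x m) = C.x (m + 1) := Equiv.swap_apply_left _ _
    have t1 : τ (C.x (m + 1)) = C.x m := Equiv.swap_apply_right _ _
    have hB : upd (upd blk i' (C.x m)) i (C.x (m + 1)) =
        fun j => (upd (upd blk i (C.x m)) i' (C.x (m + 1)) j).image τ := by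
      rw [← upd_image τ (upd blk i (C.x m)) i' (C.x (m + 1)), ← upd_image τ blk i (C.x m), himg,
        t0, t1]
      unfold upd
      have c1 : Function.update blk i' (insert (C.x m) (blk i')) i = blk i :=
        Function.update_of_ne (fun h => hii h.symm) _ _
      have c2 : Function.update blk i (insert (C.x (m + 1)) (blk i)) i' = blk i' :=
        Function.update_of_ne hii _ _
      rw [c1, c2]
      exact Function.update_comm hii _ _ _
    rw [hB, SG_relabel C τ γ₁ (m + 1 + 1) (by omega)]
    · congr 1
      funext L
      have h1 := ha m le_rfl (by omega) (s(C.x (m + 1), q') :: s(C.x m, q) :: L)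
      have h2 := hu [] L (s(C.x (m + 1), q')) (s(C.x m, q))
      rw [List.map_cons, List.map_cons, Sym2.map_mk, Sym2.map_mk] at h1
      rw [← hτ] at h1
      rw [t0, t1, hfix i' q' (by assumption), hfix i q (by assumption)] at h1
      simp only [List.nil_append] at h2
      rw [h1, h2, neg_neg]
    · intro j hj hjN
      apply Equiv.swap_apply_of_ne_of_ne
      · intro he
        have := C.x_inj j m (by omega) (by omega) he
        omega
      · intro he
        have := C.x_inj j (m + 1) (by omega) (by omega) he
        omega
  | trans h1 _ ih1 ih2 =>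
    rw [ih1 m blk hm hblk u hu ha]
    exact ih2 m blk (by rw [← h1.length_eq]; exact hm) hblk u hu ha

end T4

end Pool.Agent.H371R2.CE
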