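import Mathlib
import Pool.Agent.H371R2.CE.Defs

set_option autoImplicit false

/-!
Task T5: the main relation between the sums over growth lists.
-/

namespace Pool.Agent.H371R2.CE

open Finset

section T5

variable {V : Type} [DecidableEq V] {ι : Type} [DecidableEq ι]

namespace T5

theorem alt_move (u : List (Sym2 V) → ℚ) (h : Alt u) (p l : List (Sym2 V)) (a : Sym2 V) :
    u (p ++ a :: l) = (-1) ^ l.length * u (p ++ (l ++ [a])) := by
  induction l generalizing p with
  | nil => simp
  | cons b l ih =>
    have h1 := h p l a b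
    have h2 := ih (p ++ [b])
    simp only [List.append_assoc, List.cons_append, List.nil_append] at h2 ⊢
    rw [h1, h2, List.length_cons, pow_succ]
    simp

theorem gr_length (x : ℕ → V) (γ : List ι) (m : ℕ) (blk : ι → Finset V) (L : List (Sym2 V))
    (h : Gr x γ m blk L) : L.length = γ.length := by
  induction γ generalizing m blk L with
  | nil => simp only [Gr] at h; simp [h]
  | cons i γ ih =>
    obtain ⟨q, hq, L', rfl, hL'⟩ := h
    simp [ih _ _ _ hL']

theorem sg_congr (x : ℕ → V) (γ : List ι) (m : ℕ) (blk : ι → Finset V)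
    (u v : List (Sym2 V) → ℚ) (h : ∀ L, Gr x γ m blk L → u L = v L) :
    SG x γ m blk u = SG x γ m blk v := by
  induction γ generalizing m blk u v with
  | nil => simp only [SG]; exact h [] rfl
  | cons i γ ih =>
    simp only [SG]
    apply Finset.sum_congr rfl
    intro q hq
    apply ih
    intro L hL
    exact h _ ⟨q, hq, L, rfl, hL⟩

theorem sg_zero (x : ℕ → V) (γ : List ι) (m : ℕ) (blk : ι → Finset V) :
    SG x γ m blk (fun _ => 0) = 0 := by
  induction γ generalizing m blk with
  | nil => simp only [SG]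
  | cons i γ ih =>
    simp only [SG]
    apply Finset.sum_eq_zero
    intro q hq
    exact ih _ _

theorem sg_add (x : ℕ → V) (γ : List ι) (m : ℕ) (blk : ι → Finset V)
    (u v : List (Sym2 V) → ℚ) :
    SG x γ m blk (fun L => u L + v L) = SG x γ m blk u + SG x γ m blk v := by
  induction γ generalizing m blk u v with
  | nil => simp only [SG]
  | cons i γ ih =>
    simp only [SG]
    rw [← Finset.sum_add_distrib]
    apply Finset.sum_congr rfl
    intro q hq
    exact ih _ _ _ _

theorem sg_mul (x : ℕ → V) (γ : List ι) (m : ℕ) (blk : ι → Finset V) (c : ℚ)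
    (u : List (Sym2 V) → ℚ) :
    SG x γ m blk (fun L => c * u L) = c * SG x γ m blk u := by
  induction γ generalizing m blk u with
  | nil => simp only [SG]
  | cons i γ ih =>
    simp only [SG]
    rw [Finset.mul_sum]
    apply Finset.sum_congr rfl
    intro q hq
    exact ih _ _ _

theorem sg_sum (x : ℕ → V) (γ : List ι) (m : ℕ) (blk : ι → Finset V) {κ : Type}
    (s : Finset κ) (f : κ → List (Sym2 V) → ℚ) :
    SG x γ m blk (fun L => ∑ k ∈ s, f k L) = ∑ k ∈ s, SG x γ m blk (f k) := by
  classical
  induction s using Finset.induction_on with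
  | empty => simp only [Finset.sum_empty]; exact sg_zero _ _ _ _
  | insert a s ha ih =>
    simp only [Finset.sum_insert ha]
    rw [sg_add, ih]

theorem sg_append (x : ℕ → V) (γ δ : List ι) (m : ℕ) (blk : ι → Finset V)
    (u : List (Sym2 V) → ℚ) :
    SG x (γ ++ δ) m blk u =
      SG x γ m blk (fun L => SG x δ (m + γ.length) (fb x γ m blk) (fun L' => u (L ++ L'))) := by
  induction γ generalizing m blk u with
  | nil => simp [SG, fb]
  | cons i γ ih =>
    simp only [List.cons_append, SG, List.length_cons, fb]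
    apply Finset.sum_congr rfl
    intro q hq
    rw [ih]
    have : m + 1 + γ.length = m + (γ.length + 1) := by omega
    rw [this]

/-- the sum of `F` over the edges inside the blocks -/
def Inn (x : ℕ → V) : List ι → ℕ → (ι → Finset V) → (Sym2 V → ℚ) → ℚ
  | [], _, _, _ => 0
  | i :: γ, m, blk, F =>
      ∑ q ∈ blk i, F s(x m, q) + Inn x γ (m + 1) (upd blk i (x m)) F

theorem inn_neg (x : ℕ → V) (γ : List ι) (m : ℕ) (blk : ι → Finset V) (F : Sym2 V → ℚ) :
    Inn x γ m blk (fun e => - F e) = - Inn x γ m blk F := by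
  induction γ generalizing m blk with
  | nil => simp [Inn]
  | cons i γ ih =>
    simp only [Inn, ih, Finset.sum_neg_distrib]
    ring

/-- attaching a vertex twice cancels -/
theorem sg_inn (x : ℕ → V) (γ : List ι) (m : ℕ) (blk : ι → Finset V)
    (u : List (Sym2 V) → ℚ) (hu : Alt u) :
    SG x γ m blk (fun L => Inn x γ m blk (fun e => u (e :: L))) = 0 := by
  induction γ generalizing m blk u with
  | nil => simp [SG, Inn]
  | cons i γ ih =>
    simp only [SG, Inn]
    have h1 : ∀ q' ∈ blk i, SG x γ (m + 1) (upd blk i (x m))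
        (fun L => ∑ q ∈ blk i, u (s(x m, q) :: s(x m, q') :: L) +
          Inn x γ (m + 1) (upd blk i (x m)) (fun e => u (e :: s(x m, q') :: L))) =
        ∑ q ∈ blk i, SG x γ (m + 1) (upd blk i (x m))
          (fun L => u (s(x m, q) :: s(x m, q') :: L)) := by
      intro q' hq'
      rw [sg_add, sg_sum]
      have h2 : SG x γ (m + 1) (upd blk i (x m)) (fun L =>
          Inn x γ (m + 1) (upd blk i (x m)) (fun e => u (e :: s(x m, q') :: L))) = 0 := by
        have h3 := ih (m + 1) (upd blk i (x m)) (fun L => u (s(x m, q') :: L))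
          (fun p q a b => hu (s(x m, q') :: p) q a b)
        have h4 : SG x γ (m + 1) (upd blk i (x m)) (fun L =>
            Inn x γ (m + 1) (upd blk i (x m)) (fun e => u (e :: s(x m, q') :: L))) =
            SG x γ (m + 1) (upd blk i (x m)) (fun L => (-1) *
              Inn x γ (m + 1) (upd blk i (x m)) (fun e => u (s(x m, q') :: e :: L))) := by
          apply sg_congr
          intro L _
          rw [← neg_eq_neg_one_mul, ← inn_neg]
          congr 1
          funext e
          exact hu [] L e s(x m, q')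
        rw [h4, sg_mul, h3, mul_zero]
      rw [h2, add_zero]
    rw [Finset.sum_congr rfl h1]
    have h5 : ∑ q' ∈ blk i, ∑ q ∈ blk i, SG x γ (m + 1) (upd blk i (x m))
          (fun L => u (s(x m, q) :: s(x m, q') :: L)) =
        - ∑ q' ∈ blk i, ∑ q ∈ blk i, SG x γ (m + 1) (upd blk i (x m))
          (fun L => u (s(x m, q) :: s(x m, q') :: L)) := by
      conv_lhs => rw [Finset.sum_comm]
      rw [← Finset.sum_neg_distrib]
      apply Finset.sum_congr rfl
      intro q' _
      rw [← Finset.sum_neg_distrib]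
      apply Finset.sum_congr rfl
      intro q _
      rw [neg_eq_neg_one_mul, ← sg_mul]
      apply sg_congr
      intro L _
      rw [← neg_eq_neg_one_mul]
      exact hu [] L _ _
    linarith

/-- the blocks are disjoint and the later vertices are not in the blocks -/
structure Inv (C : Setup V ι) (m : ℕ) (blk : ι → Finset V) : Prop where
  dis : ∀ i i', i ≠ i' → Disjoint (blk i) (blk i')
  new : ∀ i, ∀ v ∈ blk i, ∀ j, m ≤ j → j < C.N → v ≠ C.x j

theorem mem_upd (blk : ι → Finset V) (i : ι) (a : V) (k : ι) (v : V) :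
    v ∈ upd blk i a k ↔ v ∈ blk k ∨ (k = i ∧ v = a) := by
  unfold upd
  by_cases h : k = i
  · subst h
    simp [or_comm]
  · simp [h]

theorem inv_upd (C : Setup V ι) (m : ℕ) (blk : ι → Finset V) (h : Inv C m blk) (i : ι)
    (hm : m < C.N) : Inv C (m + 1) (upd blk i (C.x m)) := by
  constructor
  · intro k k' hk
    rw [Finset.disjoint_left]
    intro v hv hv'
    rw [mem_upd] at hv hv'
    rcases hv with hv | ⟨rfl, rfl⟩
    · rcases hv' with hv' | ⟨rfl, rfl⟩
      · exact (Finset.disjoint_left.1 (h.dis k k' hk)) hv hv'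
      · exact h.new k _ hv m le_rfl hm rfl
    · rcases hv' with hv' | ⟨rfl, _⟩
      · exact h.new k' _ hv' m le_rfl hm rfl
      · exact hk rfl
  · intro k v hv j hj hjN
    rw [mem_upd] at hv
    rcases hv with hv | ⟨rfl, rfl⟩
    · exact h.new k v hv j (by omega) hjN
    · intro he
      have := C.x_inj m j hm hjN he
      omega

theorem inv_blk0 (C : Setup V ι) : Inv C 0 (blk0 C) := by
  constructor
  · intro i i' hi
    simp only [blk0, Finset.disjoint_singleton]
    intro h
    exact hi (C.r_inj h)
  · intro i v hv j _ hj he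
    simp only [blk0, Finset.mem_singleton] at hv
    subst hv
    exact C.x_ne_r j i hj he.symm

theorem inv_fb (C : Setup V ι) (γ : List ι) (m : ℕ) (blk : ι → Finset V) (h : Inv C m blk)
    (hm : m + γ.length ≤ C.N) : Inv C (m + γ.length) (fb C.x γ m blk) := by
  induction γ generalizing m blk with
  | nil => simpa [fb] using h
  | cons i γ ih =>
    simp only [List.length_cons] at hm
    have h1 := ih (m + 1) (upd blk i (C.x m)) (inv_upd C m blk h i (by omega)) (by omega)
    simp only [fb, List.length_cons]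
    have : m + 1 + γ.length = m + (γ.length + 1) := by omega
    rw [this] at h1
    exact h1

theorem sub_fb (x : ℕ → V) (γ : List ι) (m : ℕ) (blk : ι → Finset V) (k : ι) :
    blk k ⊆ fb x γ m blk k := by
  induction γ generalizing m blk with
  | nil => simp [fb]
  | cons i γ ih =>
    simp only [fb]
    refine subset_trans ?_ (ih (m + 1) (upd blk i (x m)))
    intro v hv
    rw [mem_upd]
    exact Or.inl hv

theorem x_mem_fb (x : ℕ → V) (γ : List ι) (m : ℕ) (blk : ι → Finset V) (j : ℕ) (hj : m ≤ j)
    (hj' : j < m + γ.length) : ∃ i, x j ∈ fb x γ m blk i := by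
  induction γ generalizing m blk with
  | nil => simp at hj'; omega
  | cons i γ ih =>
    simp only [fb]
    simp only [List.length_cons] at hj'
    rcases Nat.eq_or_lt_of_le hj with rfl | hlt
    · refine ⟨i, sub_fb x γ _ _ _ ?_⟩
      rw [mem_upd]
      exact Or.inr ⟨rfl, rfl⟩
    · exact ih (m + 1) _ hlt (by omega)

theorem sum_sym2_insert (W : Finset V) (a : V) (ha : a ∉ W) (F : Sym2 V → ℚ) :
    ∑ e ∈ (insert a W).sym2, F e =
      ∑ e ∈ W.sym2, F e + (F s(a, a) + ∑ w ∈ W, F s(a, w)) := by
  rw [Finset.sym2_insert, Finset.sum_union, Finset.sum_image, Finset.sum_insert ha]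
  · ring
  · intro b _ c _ h
    have h' : s(a, b) = s(a, c) := h
    rw [Sym2.eq_iff] at h'
    rcases h' with ⟨_, h'⟩ | ⟨h1, h2⟩
    · exact h'
    · rw [h2, h1]
  · rw [Finset.disjoint_left]
    intro e he he'
    simp only [Finset.mem_image] at he
    obtain ⟨b, hb, rfl⟩ := he
    rw [Finset.mk_mem_sym2_iff] at he'
    exact ha he'.1

theorem sum_fb [Fintype ι] (C : Setup V ι) (γ : List ι) (m : ℕ) (blk : ι → Finset V)
    (h : Inv C m blk) (hm : m + γ.length ≤ C.N) (F : Sym2 V → ℚ) (hd : ∀ v, F s(v, v) = 0)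
    (hc : ∀ i i', i ≠ i' → ∀ v ∈ fb C.x γ m blk i, ∀ w ∈ fb C.x γ m blk i', F s(v, w) = 0) :
    ∑ e ∈ (univ.biUnion (fb C.x γ m blk)).sym2, F e =
      ∑ e ∈ (univ.biUnion blk).sym2, F e + Inn C.x γ m blk F := by
  induction γ generalizing m blk with
  | nil => simp [fb, Inn]
  | cons i γ ih =>
    simp only [List.length_cons] at hm
    simp only [fb, Inn] at hc ⊢
    rw [ih (m + 1) (upd blk i (C.x m)) (inv_upd C m blk h i (by omega)) (by omega) hc]
    have hU : univ.biUnion (upd blk i (C.x m)) = insert (C.x m) (univ.biUnion blk) := by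
      ext v
      simp only [Finset.mem_biUnion, Finset.mem_univ, true_and, mem_upd, Finset.mem_insert]
      constructor
      · rintro ⟨k, hk | ⟨_, hv⟩⟩
        · exact Or.inr ⟨k, hk⟩
        · exact Or.inl hv
      · rintro (hv | ⟨k, hk⟩)
        · exact ⟨i, Or.inr ⟨rfl, hv⟩⟩
        · exact ⟨k, Or.inl hk⟩
    have hx : C.x m ∉ univ.biUnion blk := by
      simp only [Finset.mem_biUnion, Finset.mem_univ, true_and, not_exists]
      intro k hk
      exact h.new k _ hk m le_rfl (by omega) rfl
    rw [hU, sum_sym2_insert _ _ hx, hd, zero_add, Finset.sum_biUnion]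
    · rw [Finset.sum_eq_single i]
      · ring
      · intro k _ hk
        apply Finset.sum_eq_zero
        intro w hw
        refine hc i k (Ne.symm hk) _ (sub_fb C.x γ _ _ _ ?_) _ (sub_fb C.x γ _ _ _ ?_)
        · rw [mem_upd]; exact Or.inr ⟨rfl, rfl⟩
        · rw [mem_upd]; exact Or.inl hw
      · intro hi
        exact absurd (Finset.mem_univ i) hi
    · intro k _ k' _ hk
      exact h.dis k k' hk

/-- the sum over all edges -/
theorem sum_all [Fintype V] [Fintype ι] (C : Setup V ι) (β : List ι)
    (hβ : β.length + 1 = C.N) (F : Sym2 V → ℚ) (hd : ∀ v, F s(v, v) = 0)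
    (hc : ∀ i i', i ≠ i' → ∀ v ∈ fb C.x β 0 (blk0 C) i, ∀ w ∈ fb C.x β 0 (blk0 C) i',
      F s(v, w) = 0) :
    ∑ e, F e = Inn C.x β 0 (blk0 C) F +
      ∑ i, ∑ q ∈ fb C.x β 0 (blk0 C) i, F s(C.x β.length, q) := by
  have hinv := inv_fb C β 0 (blk0 C) (inv_blk0 C) (by omega)
  rw [zero_add] at hinv
  have hU : (univ : Finset V) =
      insert (C.x β.length) (univ.biUnion (fb C.x β 0 (blk0 C))) := by
    ext v
    simp only [Finset.mem_univ, Finset.mem_insert, Finset.mem_biUnion, true_and, true_iff]
    rcases C.cover v with ⟨i, rfl⟩ | ⟨j, hj, rfl⟩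
    · right
      exact ⟨i, sub_fb C.x β 0 _ _ (by simp [blk0])⟩
    · rcases Nat.lt_or_ge j β.length with h | h
      · right
        exact x_mem_fb C.x β 0 _ j (Nat.zero_le _) (by omega)
      · left
        have : j = β.length := by omega
        rw [this]
  have hx : C.x β.length ∉ univ.biUnion (fb C.x β 0 (blk0 C)) := by
    simp only [Finset.mem_biUnion, Finset.mem_univ, true_and, not_exists]
    intro k hk
    exact hinv.new k _ hk β.length le_rfl (by omega) rfl
  have h1 : ∑ e, F e = ∑ e ∈ (univ : Finset V).sym2, F e := by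
    rw [Finset.sym2_univ]
  rw [h1, hU, sum_sym2_insert _ _ hx, hd, zero_add,
    sum_fb C β 0 (blk0 C) (inv_blk0 C) (by omega) F hd hc, Finset.sum_biUnion]
  · have h0 : ∑ e ∈ (univ.biUnion (blk0 C)).sym2, F e = 0 := by
      apply Finset.sum_eq_zero
      intro e he
      induction e using Sym2.ind with
      | _ a b =>
        rw [Finset.mk_mem_sym2_iff] at he
        simp only [Finset.mem_biUnion, Finset.mem_univ, true_and, blk0,
          Finset.mem_singleton] at he
        obtain ⟨⟨i, rfl⟩, ⟨i', rfl⟩⟩ := he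
        by_cases hii : i = i'
        · subst hii
          exact hd _
        · exact hc i i' hii _ (sub_fb C.x β 0 _ _ (by simp [blk0])) _
            (sub_fb C.x β 0 _ _ (by simp [blk0]))
    rw [h0, zero_add]
  · intro k _ k' _ hk
    exact hinv.dis k k' hk

end T5

theorem main_rel [Fintype V] [Fintype ι] (C : Setup V ι) (β : List ι)
    (hβ : β.length + 1 = C.N) (u : List (Sym2 V) → ℚ) (hu : Alt u)
    (hdiag : ∀ v L, u (s(v, v) :: L) = 0)
    (hcross : ∀ L, Gr C.x β 0 (blk0 C) L → ∀ i i', i ≠ i' →
      ∀ v ∈ fb C.x β 0 (blk0 C) i, ∀ w ∈ fb C.x β 0 (blk0 C) i', u (s(v, w) :: L) = 0) :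
    SG C.x β 0 (blk0 C) (bd u) =
      (-1) ^ β.length * ∑ i, SG C.x (β ++ [i]) 0 (blk0 C) u := by
  have h1 : SG C.x β 0 (blk0 C) (bd u) =
      SG C.x β 0 (blk0 C) (fun L => T5.Inn C.x β 0 (blk0 C) (fun e => u (e :: L)) +
        ∑ i, ∑ q ∈ fb C.x β 0 (blk0 C) i,
          (-1) ^ β.length * u (L ++ [s(C.x β.length, q)])) := by
    apply T5.sg_congr
    intro L hL
    unfold bd
    rw [T5.sum_all C β hβ (fun e => u (e :: L)) (fun v => hdiag v L) (hcross L hL)]
    congr 1
    apply Finset.sum_congr rfl
    intro i _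
    apply Finset.sum_congr rfl
    intro q _
    have h2 := T5.alt_move u hu [] L s(C.x β.length, q)
    simp only [List.nil_append] at h2
    rw [h2, T5.gr_length _ _ _ _ _ hL]
  rw [h1, T5.sg_add, T5.sg_inn _ _ _ _ _ hu, zero_add, T5.sg_sum, Finset.mul_sum]
  apply Finset.sum_congr rfl
  intro i _
  rw [T5.sg_append, ← T5.sg_mul]
  apply T5.sg_congr
  intro L hL
  simp only [SG, zero_add]
  rw [Finset.mul_sum]

end T5

end Pool.Agent.H371R2.CE
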