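import Mathlib
import Pool.Agent.H371R2.CE.Defs

set_option autoImplicit false

/-! The cycle: antisymmetrised star forests with one isolated vertex. -/

namespace Pool.Agent.H371R2.CE

open Finset

section T6

variable {V : Type} [DecidableEq V] {ι : Type} [DecidableEq ι]

theorem map_swap_eq (a b : V) (l : List V) (ha : a ∉ l) (hb : b ∉ l) :
    l.map (Equiv.swap a b) = l := by
  conv_rhs => rw [← List.map_id l]
  apply List.map_congr_left
  intro v hv
  simp only [id]
  apply Equiv.swap_apply_of_ne_of_ne
  · rintro rfl; exact ha hv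
  · rintro rfl; exact hb hv

/-- alternating function on lists of vertices: `±1` on the rearrangements of `W` -/
noncomputable def eps [Fintype V] (W : List V) (l : List V) : ℚ :=
  ∑ σ : Equiv.Perm V, ((Equiv.Perm.sign σ : ℤ) : ℚ) * (if l = W.map σ then 1 else 0)

theorem eps_map [Fintype V] (W : List V) (τ : Equiv.Perm V) (l : List V) :
    eps W (l.map τ) = ((Equiv.Perm.sign τ : ℤ) : ℚ) * eps W l := by
  unfold eps
  rw [← Equiv.sum_comp (Equiv.mulLeft τ), Finset.mul_sum]
  apply Finset.sum_congr rfl
  intro σ _
  have h : (l.map τ = W.map (Equiv.mulLeft τ σ)) ↔ l = W.map σ := by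
    have h1 : W.map (Equiv.mulLeft τ σ) = (W.map σ).map τ := by
      rw [List.map_map]
      rfl
    rw [h1]
    exact (List.map_injective_iff.2 τ.injective).eq_iff
  simp only [h]
  simp only [Equiv.coe_mulLeft, Equiv.Perm.sign_mul, Units.val_mul, Int.cast_mul]
  ring

theorem eps_ne [Fintype V] (W : List V) (l : List V) (h : eps W l ≠ 0) :
    ∃ σ : Equiv.Perm V, l = W.map σ := by
  by_contra hn
  push Not at hn
  apply h
  unfold eps
  apply Finset.sum_eq_zero
  intro σ _
  rw [if_neg (hn σ), mul_zero]

theorem eps_nodup [Fintype V] (W : List V) (hW : W.Nodup) (l : List V) (h : eps W l ≠ 0) :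
    l.Nodup := by
  obtain ⟨σ, rfl⟩ := eps_ne W l h
  exact hW.map σ.injective

theorem eps_mem [Fintype V] (W : List V) (hW : ∀ v, v ∈ W) (l : List V) (h : eps W l ≠ 0)
    (v : V) : v ∈ l := by
  obtain ⟨σ, rfl⟩ := eps_ne W l h
  rw [List.mem_map]
  exact ⟨σ.symm v, hW _, by simp⟩

theorem eps_self [Fintype V] (W : List V) (hW : ∀ v, v ∈ W) : eps W W = 1 := by
  unfold eps
  rw [Finset.sum_eq_single 1]
  · simp
  · intro σ _ hσ
    rw [if_neg, mul_zero]
    intro h
    apply hσ
    ext v
    obtain ⟨i, hi, hv⟩ := List.getElem_of_mem (hW v)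
    have h1 : W[i]? = (W.map σ)[i]? := by rw [← h]
    rw [List.getElem?_map, List.getElem?_eq_getElem hi, hv] at h1
    simp only [Option.map_some, Option.some.injEq] at h1
    simpa using h1.symm
  · intro h
    exact absurd (Finset.mem_univ _) h

theorem eps_exch [Fintype V] (W : List V) (hW : W.Nodup) (p m q : List V) (a b : V) :
    eps W (p ++ a :: (m ++ b :: q)) = - eps W (p ++ b :: (m ++ a :: q)) := by
  have hperm : (p ++ a :: (m ++ b :: q)).Perm (p ++ b :: (m ++ a :: q)) := by
    rw [List.perm_iff_count]
    intro v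
    simp only [List.count_append, List.count_cons]
    omega
  by_cases hnd : (p ++ a :: (m ++ b :: q)).Nodup
  · have h1 : p ++ b :: (m ++ a :: q) = (p ++ a :: (m ++ b :: q)).map (Equiv.swap a b) := by
      rw [List.nodup_append] at hnd
      obtain ⟨hp, h2, h3⟩ := hnd
      rw [List.nodup_cons] at h2
      obtain ⟨h4, h5⟩ := h2
      rw [List.nodup_append] at h5
      obtain ⟨hm, h6, h7⟩ := h5
      rw [List.nodup_cons] at h6
      obtain ⟨h8, hq⟩ := h6
      have hap : a ∉ p := fun h => h3 a h a (by simp) rfl
      have hbp : b ∉ p := fun h => h3 b h b (by simp) rfl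
      have ham : a ∉ m := fun h => h4 (by simp [h])
      have hbm : b ∉ m := fun h => h7 b h b (by simp) rfl
      have haq : a ∉ q := fun h => h4 (by simp [h])
      rw [List.map_append, List.map_cons, List.map_append, List.map_cons,
        map_swap_eq a b p hap hbp, map_swap_eq a b m ham hbm, map_swap_eq a b q haq h8]
      simp
    have hab : a ≠ b := by
      rintro rfl
      have h2 := hnd.of_append_right
      rw [List.nodup_cons] at h2
      exact h2.1 (by simp)
    rw [h1, eps_map, Equiv.Perm.sign_swap hab]
    simp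
  · have h1 : eps W (p ++ a :: (m ++ b :: q)) = 0 := by
      by_contra h
      exact hnd (eps_nodup W hW _ h)
    have h2 : eps W (p ++ b :: (m ++ a :: q)) = 0 := by
      by_contra h
      exact hnd (hperm.nodup_iff.2 (eps_nodup W hW _ h))
    rw [h1, h2]
    simp

/-- the roots as a list -/
noncomputable def rl [Fintype ι] (C : Setup V ι) : List V :=
  (univ : Finset ι).toList.map C.r

/-- all vertices as a list -/
noncomputable def VL [Fintype ι] (C : Setup V ι) : List V :=
  (List.range C.N).map C.x ++ rl C

theorem mem_rl [Fintype ι] (C : Setup V ι) (v : V) : v ∈ rl C ↔ ∃ i, C.r i = v := by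
  simp [rl]

theorem mem_VL [Fintype ι] (C : Setup V ι) (v : V) : v ∈ VL C := by
  rw [VL, List.mem_append, mem_rl]
  rcases C.cover v with ⟨i, h⟩ | ⟨j, hj, h⟩
  · exact Or.inr ⟨i, h.symm⟩
  · left
    rw [List.mem_map]
    exact ⟨j, List.mem_range.2 hj, h.symm⟩

theorem nodup_VL [Fintype ι] (C : Setup V ι) : (VL C).Nodup := by
  rw [VL, List.nodup_append]
  refine ⟨?_, ?_, ?_⟩
  · apply List.Nodup.map_on _ List.nodup_range
    intro j hj j' hj' h
    exact C.x_inj j j' (List.mem_range.1 hj) (List.mem_range.1 hj') h
  · exact (Finset.nodup_toList _).map C.r_inj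
  · intro v hv w hw h
    rw [List.mem_map] at hv
    obtain ⟨j, hj, rfl⟩ := hv
    rw [mem_rl] at hw
    obtain ⟨i, rfl⟩ := hw
    exact C.x_ne_r j i (List.mem_range.1 hj) h

/-- the alternating function on lists of pairs (vertex, root) -/
noncomputable def hh [Fintype V] [Fintype ι] (C : Setup V ι) (b : ι → ℕ)
    (t : List (V × ι)) : ℚ :=
  if (∀ i, (t.map Prod.snd).count i = b i) then
    ∑ v : V, eps (VL C) (t.map Prod.fst ++ v :: rl C) else 0

theorem hh_alt [Fintype V] [Fintype ι] (C : Setup V ι) (b : ι → ℕ) : Alt (hh C b) := by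
  intro p q a c
  unfold hh
  have h1 : (∀ i, ((p ++ a :: c :: q).map Prod.snd).count i = b i) ↔
      (∀ i, ((p ++ c :: a :: q).map Prod.snd).count i = b i) := by
    apply forall_congr'
    intro i
    simp only [List.map_append, List.map_cons, List.count_append, List.count_cons]
    constructor <;> intro h <;> omega
  by_cases h2 : (∀ i, ((p ++ a :: c :: q).map Prod.snd).count i = b i)
  · rw [if_pos h2, if_pos (h1.1 h2), ← Finset.sum_neg_distrib]
    apply Finset.sum_congr rfl
    intro v _
    simp only [List.map_append, List.map_cons, List.append_assoc, List.cons_append]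
    exact eps_exch (VL C) (nodup_VL C) (p.map Prod.fst) [] _ a.1 c.1
  · rw [if_neg h2, if_neg (fun h => h2 (h1.2 h))]
    simp

theorem hh_bd [Fintype V] [Fintype ι] (C : Setup V ι) (b : ι → ℕ) (t : List (V × ι)) :
    ∑ a : V × ι, hh C b (a :: t) = 0 := by
  rw [Fintype.sum_prod_type, Finset.sum_comm]
  apply Finset.sum_eq_zero
  intro i _
  unfold hh
  by_cases h : ∀ j, ((((i : ι)) :: t.map Prod.snd).count j = b j)
  · have h1 : ∀ v : V, (∀ j, (((v, i) :: t).map Prod.snd).count j = b j) := by
      intro v
      simpa using h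
    simp only [h1, implies_true, if_true]
    have h2 : ∑ v : V, ∑ w : V, eps (VL C) (((v, i) :: t).map Prod.fst ++ w :: rl C) =
        - ∑ v : V, ∑ w : V, eps (VL C) (((v, i) :: t).map Prod.fst ++ w :: rl C) := by
      conv_lhs => rw [Finset.sum_comm]
      rw [← Finset.sum_neg_distrib]
      apply Finset.sum_congr rfl
      intro v _
      rw [← Finset.sum_neg_distrib]
      apply Finset.sum_congr rfl
      intro w _
      simp only [List.map_cons, List.cons_append]
      exact eps_exch (VL C) (nodup_VL C) [] (t.map Prod.fst) (rl C) w v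
    linarith
  · have h1 : ∀ v : V, ¬ (∀ j, (((v, i) :: t).map Prod.snd).count j = b j) := by
      intro v h2
      exact h (by simpa using h2)
    apply Finset.sum_eq_zero
    intro v _
    rw [if_neg (h1 v)]

theorem hh_perm [Fintype V] [Fintype ι] (C : Setup V ι) (b : ι → ℕ) (σ : Equiv.Perm V)
    (hσ : ∀ i, σ (C.r i) = C.r i) (t : List (V × ι)) :
    hh C b (t.map (fun a => (σ a.1, a.2))) = ((Equiv.Perm.sign σ : ℤ) : ℚ) * hh C b t := by
  unfold hh
  have h1 : (t.map (fun a => (σ a.1, a.2))).map Prod.snd = t.map Prod.snd := by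
    rw [List.map_map]
    rfl
  have h2 : (t.map (fun a => (σ a.1, a.2))).map Prod.fst = (t.map Prod.fst).map σ := by
    rw [List.map_map, List.map_map]
    rfl
  have h3 : (rl C).map σ = rl C := by
    unfold rl
    rw [List.map_map]
    apply List.map_congr_left
    intro i _
    exact hσ i
  rw [h1, h2]
  by_cases h : ∀ i, (t.map Prod.snd).count i = b i
  · rw [if_pos h, if_pos h, ← Equiv.sum_comp σ, Finset.mul_sum]
    apply Finset.sum_congr rfl
    intro v _
    rw [← eps_map, List.map_append, List.map_cons, h3]
  · rw [if_neg h, if_neg h, mul_zero]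

theorem hh_ne [Fintype V] [Fintype ι] (C : Setup V ι) (b : ι → ℕ) (t : List (V × ι))
    (h : hh C b t ≠ 0) : (t.map Prod.fst).Nodup ∧ (∀ a ∈ t, ∀ i, a.1 ≠ C.r i) ∧
      ∀ i, (t.map Prod.snd).count i = b i := by
  unfold hh at h
  by_cases h1 : ∀ i, (t.map Prod.snd).count i = b i
  · rw [if_pos h1] at h
    obtain ⟨v, _, hv⟩ := Finset.exists_ne_zero_of_sum_ne_zero h
    have h2 := eps_nodup _ (nodup_VL C) _ hv
    rw [List.nodup_append] at h2
    refine ⟨h2.1, ?_, h1⟩
    intro a ha i hai
    refine h2.2.2 a.1 (List.mem_map.2 ⟨a, ha, rfl⟩) (C.r i) ?_ hai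
    exact List.mem_cons_of_mem _ ((mem_rl C _).2 ⟨i, rfl⟩)
  · rw [if_neg h1] at h
    exact absurd rfl h

/-- push forward from lists of pairs to lists of edges -/
noncomputable def push [Fintype V] [Fintype ι] (C : Setup V ι) :
    List (Sym2 V) → (List (V × ι) → ℚ) → ℚ
  | [], h => h []
  | e :: l, h => ∑ a : V × ι, if e = s(a.1, C.r a.2) then push C l (fun t => h (a :: t)) else 0

theorem push_sum [Fintype V] [Fintype ι] (C : Setup V ι) {κ : Type} (s : Finset κ)
    (l : List (Sym2 V)) : ∀ h : κ → List (V × ι) → ℚ,
    push C l (fun t => ∑ k ∈ s, h k t) = ∑ k ∈ s, push C l (h k) := by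
  induction l with
  | nil => intro h; rfl
  | cons e l ih =>
    intro h
    simp only [push]
    rw [Finset.sum_comm]
    apply Finset.sum_congr rfl
    intro a _
    by_cases he : e = s(a.1, C.r a.2)
    · simp only [he, if_true]
      exact ih (fun k t => h k (a :: t))
    · simp only [he, if_false, Finset.sum_const_zero]

theorem push_mul [Fintype V] [Fintype ι] (C : Setup V ι) (c : ℚ)
    (l : List (Sym2 V)) : ∀ h : List (V × ι) → ℚ,
    push C l (fun t => c * h t) = c * push C l h := by
  induction l with
  | nil => intro h; rfl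
  | cons e l ih =>
    intro h
    simp only [push]
    rw [Finset.mul_sum]
    apply Finset.sum_congr rfl
    intro a _
    by_cases he : e = s(a.1, C.r a.2)
    · simp only [he, if_true]
      exact ih (fun t => h (a :: t))
    · simp only [he, if_false, mul_zero]

theorem push_alt [Fintype V] [Fintype ι] (C : Setup V ι) (p q : List (Sym2 V))
    (e f : Sym2 V) : ∀ h : List (V × ι) → ℚ, Alt h →
    push C (p ++ e :: f :: q) h = - push C (p ++ f :: e :: q) h := by
  induction p with
  | nil =>
    intro h hh
    simp only [List.nil_append, push]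
    have h1 : ∀ a c : V × ι, push C q (fun t => h (a :: c :: t)) =
        - push C q (fun t => h (c :: a :: t)) := by
      intro a c
      have h2 : (fun t => h (a :: c :: t)) = (fun t => (-1 : ℚ) * h (c :: a :: t)) := by
        funext t
        have := hh [] t a c
        simp only [List.nil_append] at this
        rw [this]
        ring
      rw [h2, push_mul]
      ring
    have h3 : ∀ (e f : Sym2 V), (∑ a : V × ι, if e = s(a.1, C.r a.2) then
        ∑ c : V × ι, if f = s(c.1, C.r c.2) then push C q (fun t => h (a :: c :: t)) else 0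
        else 0) = ∑ a : V × ι, ∑ c : V × ι, if e = s(a.1, C.r a.2) ∧ f = s(c.1, C.r c.2) then
          push C q (fun t => h (a :: c :: t)) else 0 := by
      intro e f
      apply Finset.sum_congr rfl
      intro a _
      by_cases he : e = s(a.1, C.r a.2)
      · simp only [he, if_true, true_and]
      · simp only [he, if_false, false_and, Finset.sum_const_zero]
    rw [h3, h3, ← Finset.sum_neg_distrib]
    conv_rhs => rw [Finset.sum_congr rfl (fun a _ => (Finset.sum_neg_distrib _).symm)]
    conv_rhs => rw [Finset.sum_comm]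
    apply Finset.sum_congr rfl
    intro a _
    apply Finset.sum_congr rfl
    intro c _
    by_cases he : e = s(a.1, C.r a.2) ∧ f = s(c.1, C.r c.2)
    · rw [if_pos he, if_pos he.symm, h1]
    · rw [if_neg he, if_neg (fun h => he h.symm)]
      simp
  | cons g p ih =>
    intro h hh
    simp only [List.cons_append, push]
    rw [← Finset.sum_neg_distrib]
    apply Finset.sum_congr rfl
    intro a _
    by_cases he : g = s(a.1, C.r a.2)
    · simp only [he, if_true]
      apply ih (fun t => h (a :: t))
      intro p' q' c d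
      exact hh (a :: p') q' c d
    · simp only [he, if_false, neg_zero]

theorem push_bd [Fintype V] [Fintype ι] (C : Setup V ι) (l : List (Sym2 V))
    (h : List (V × ι) → ℚ) :
    bd (fun l => push C l h) l = push C l (fun t => ∑ a : V × ι, h (a :: t)) := by
  rw [push_sum]
  unfold bd
  simp only [push]
  rw [Finset.sum_comm]
  apply Finset.sum_congr rfl
  intro a _
  rw [Finset.sum_ite_eq' univ (s(a.1, C.r a.2))]
  simp

theorem push_map [Fintype V] [Fintype ι] (C : Setup V ι) (σ : Equiv.Perm V)
    (hσ : ∀ i, σ (C.r i) = C.r i) (l : List (Sym2 V)) : ∀ h : List (V × ι) → ℚ,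
    push C (l.map (Sym2.map σ)) h =
      push C l (fun t => h (t.map (fun a => (σ a.1, a.2)))) := by
  induction l with
  | nil => intro h; rfl
  | cons e l ih =>
    intro h
    simp only [List.map_cons, push]
    rw [← Equiv.sum_comp (Equiv.prodCongr σ (Equiv.refl ι))]
    apply Finset.sum_congr rfl
    rintro ⟨v, i⟩ _
    simp only [Equiv.prodCongr_apply, Prod.map, Equiv.refl_apply]
    have h1 : (Sym2.map σ e = s(σ v, C.r i)) ↔ e = s(v, C.r i) := by
      rw [show s(σ v, C.r i) = Sym2.map σ s(v, C.r i) by rw [Sym2.map_mk, hσ]]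
      exact (Sym2.map.injective σ.injective).eq_iff
    by_cases he : e = s(v, C.r i)
    · rw [if_pos (h1.2 he), if_pos he, ih]
    · rw [if_neg (fun h => he (h1.1 h)), if_neg he]

theorem push_ne [Fintype V] [Fintype ι] (C : Setup V ι) (l : List (Sym2 V)) :
    ∀ h : List (V × ι) → ℚ, push C l h ≠ 0 →
      ∃ t : List (V × ι), l = t.map (fun a => s(a.1, C.r a.2)) ∧ h t ≠ 0 := by
  induction l with
  | nil => intro h hne; exact ⟨[], rfl, hne⟩
  | cons e l ih =>
    intro h hne
    simp only [push] at hne
    obtain ⟨a, _, ha⟩ := Finset.exists_ne_zero_of_sum_ne_zero hne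
    by_cases he : e = s(a.1, C.r a.2)
    · rw [if_pos he] at ha
      obtain ⟨t, ht, hnt⟩ := ih _ ha
      exact ⟨a :: t, by rw [List.map_cons, ← ht, he], hnt⟩
    · rw [if_neg he] at ha
      exact absurd rfl ha

/-- `(x m, g_0), (x (m+1), g_1), …` -/
def zipx (C : Setup V ι) : ℕ → List ι → List (V × ι)
  | _, [] => []
  | m, i :: g => (C.x m, i) :: zipx C (m + 1) g

theorem SG_push [Fintype V] [Fintype ι] (C : Setup V ι) (g : List ι) : ∀ (m : ℕ)
    (blk : ι → Finset V) (h : List (V × ι) → ℚ), m + g.length ≤ C.N →
    (∀ i, C.r i ∈ blk i) → (∀ i, ∀ v ∈ blk i, ∀ i', v = C.r i' → i' = i) →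
    SG C.x g m blk (fun L => push C L h) = h (zipx C m g) := by
  induction g with
  | nil => intro m blk h _ _ _; rfl
  | cons i g ih =>
    intro m blk h hm hr hb
    simp only [List.length_cons] at hm
    simp only [SG, zipx]
    rw [Finset.sum_eq_single (C.r i)]
    · have h1 : ∀ L, push C (s(C.x m, C.r i) :: L) h =
          push C L (fun t => h ((C.x m, i) :: t)) := by
        intro L
        simp only [push]
        rw [Finset.sum_eq_single (C.x m, i)]
        · simp
        · rintro ⟨v, j⟩ _ hne
          rw [if_neg]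
          intro he
          rw [Sym2.eq_iff] at he
          rcases he with ⟨h2, h3⟩ | ⟨h2, h3⟩
          · simp only at h2 h3
            exact hne (by rw [← h2, C.r_inj h3])
          · exact C.x_ne_r m j (by omega) h2
        · intro h2
          exact absurd (Finset.mem_univ _) h2
      simp only [h1]
      apply ih (m + 1) _ (fun t => h ((C.x m, i) :: t)) (by omega)
      · intro j
        unfold upd
        by_cases hj : j = i
        · subst hj
          rw [Function.update_self]
          exact Finset.mem_insert_of_mem (hr j)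
        · rw [Function.update_of_ne hj]
          exact hr j
      · intro j v hv i' hvi
        unfold upd at hv
        by_cases hj : j = i
        · subst hj
          rw [Function.update_self, Finset.mem_insert] at hv
          rcases hv with hv | hv
          · exact absurd (hv ▸ hvi) (C.x_ne_r m i' (by omega))
          · exact hb j v hv i' hvi
        · rw [Function.update_of_ne hj] at hv
          exact hb j v hv i' hvi
    · intro q hq hqi
      have h1 : ∀ L, push C (s(C.x m, q) :: L) h = 0 := by
        intro L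
        simp only [push]
        apply Finset.sum_eq_zero
        rintro ⟨v, j⟩ _
        rw [if_neg]
        intro he
        rw [Sym2.eq_iff] at he
        rcases he with ⟨h2, h3⟩ | ⟨h2, h3⟩
        · have := hb i q hq j h3
          subst this
          exact hqi h3
        · exact C.x_ne_r m j (by omega) h2
      simp only [h1]
      clear ih h1
      generalize upd blk i (C.x m) = blk'
      generalize m + 1 = m'
      clear hm hr hb hq
      induction g generalizing m' blk' with
      | nil => rfl
      | cons i g ih =>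
        simp only [SG]
        apply Finset.sum_eq_zero
        intro q _
        apply ih
    · intro h1
      exact absurd (hr i) h1

theorem zipx_fst (C : Setup V ι) (g : List ι) : ∀ m : ℕ,
    (zipx C m g).map Prod.fst = (List.range' m g.length).map C.x := by
  induction g with
  | nil => intro m; rfl
  | cons i g ih =>
    intro m
    simp only [zipx, List.map_cons, List.length_cons, List.range'_succ, ih]

theorem zipx_snd (C : Setup V ι) (g : List ι) : ∀ m : ℕ,
    (zipx C m g).map Prod.snd = g := by
  induction g with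
  | nil => intro m; rfl
  | cons i g ih =>
    intro m
    simp only [zipx, List.map_cons, ih]

theorem sum_eps_last [Fintype V] [Fintype ι] (C : Setup V ι) (n : ℕ) (hn : n + 1 = C.N) :
    ∑ v : V, eps (VL C) ((List.range n).map C.x ++ v :: rl C) = 1 := by
  have hVL : VL C = (List.range n).map C.x ++ C.x n :: rl C := by
    unfold VL
    rw [← hn, List.range_succ, List.map_append]
    simp
  rw [Finset.sum_eq_single (C.x n)]
  · conv_lhs => rw [← hVL]
    exact eps_self _ (mem_VL C)
  · intro v _ hv
    by_contra hne
    have h1 := eps_mem _ (mem_VL C) _ hne (C.x n)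
    rw [List.mem_append, List.mem_cons] at h1
    rcases h1 with h1 | h1 | h1
    · rw [List.mem_map] at h1
      obtain ⟨j, hj, hj'⟩ := h1
      have := C.x_inj j n (by have := List.mem_range.1 hj; omega) (by omega) hj'
      have h2 := List.mem_range.1 hj
      omega
    · exact hv h1.symm
    · rw [mem_rl] at h1
      obtain ⟨i, hi⟩ := h1
      exact C.x_ne_r n i (by omega) hi.symm
  · intro h
    exact absurd (Finset.mem_univ _) h

theorem cycle_exists [Fintype V] [Fintype ι] (C : Setup V ι) (b : ι → ℕ)
    (hb : ∑ i, b i + 1 = C.N) :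
    ∃ (z : List (Sym2 V) → ℚ) (κ : ℚ), κ ≠ 0 ∧ Alt z ∧ (∀ l, bd z l = 0) ∧
      (∀ σ : Equiv.Perm V, (∀ i, σ (C.r i) = C.r i) → ∀ l,
        z (l.map (Sym2.map σ)) = ((Equiv.Perm.sign σ : ℤ) : ℚ) * z l) ∧
      (∀ l, z l ≠ 0 → IsStar C b l) ∧
      (∀ γ : List ι, γ.length + 1 = C.N →
        SG C.x γ 0 (blk0 C) z = if (∀ i, γ.count i = b i) then κ else 0) := by
  refine ⟨fun l => push C l (hh C b), 1, one_ne_zero, ?_, ?_, ?_, ?_, ?_⟩
  · intro p q e f
    exact push_alt C p q e f _ (hh_alt C b)
  · intro l
    rw [push_bd]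
    have h1 : (fun t => ∑ a : V × ι, hh C b (a :: t)) = fun t => (0 : ℚ) * hh C b t := by
      funext t
      rw [hh_bd, zero_mul]
    rw [h1, push_mul, zero_mul]
  · intro σ hσ l
    simp only
    rw [push_map C σ hσ, ← push_mul]
    congr 1
    funext t
    exact hh_perm C b σ hσ t
  · intro l hl
    obtain ⟨t, ht, hne⟩ := push_ne C l _ hl
    obtain ⟨h1, h2, h3⟩ := hh_ne C b t hne
    exact ⟨t, ht, h1, h2, h3⟩
  · intro γ hγ
    rw [SG_push C γ 0 (blk0 C) (hh C b) (by omega)]
    · unfold hh
      rw [zipx_snd, zipx_fst, ← List.range_eq_range', sum_eps_last C γ.length hγ]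
    · intro i
      simp [blk0]
    · intro i v hv i' h
      simp only [blk0, Finset.mem_singleton] at hv
      exact C.r_inj (h.symm.trans hv)

end T6

end Pool.Agent.H371R2.CE
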