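import Mathlib
import Pool.Agent.H371R2.CE.Defs

set_option autoImplicit false

/-!
Section T7: antisymmetrisation over the permutations fixing the roots (helper36).
-/

namespace Pool.Agent.H371R2.CE

open Finset

section T7

variable {V : Type} [DecidableEq V] {ι : Type} [DecidableEq ι]

theorem map_sym2_mul (σ τ : Equiv.Perm V) (l : List (Sym2 V)) :
    (l.map (Sym2.map τ)).map (Sym2.map σ) = l.map (Sym2.map (σ * τ : Equiv.Perm V)) := by
  rw [List.map_map, ← Sym2.map_comp]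
  rfl

theorem avg_alt [Fintype V] (C : Setup V ι) {u : List (Sym2 V) → ℚ} (h : Alt u) :
    Alt (avg C u) := by
  intro p q a b
  unfold avg
  rw [← Finset.sum_neg_distrib]
  refine Finset.sum_congr rfl fun σ _ => ?_
  simp only [List.map_append, List.map_cons]
  rw [h]
  ring

theorem avg_anti [Fintype V] (C : Setup V ι) (u : List (Sym2 V) → ℚ) :
    Anti C 0 (avg C u) := by
  classical
  intro j _ hj l
  have hne : C.x j ≠ C.x (j + 1) := by
    intro h
    have := C.x_inj j (j + 1) (by omega) hj h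
    omega
  have hfix : ∀ i, Equiv.swap (C.x j) (C.x (j + 1)) (C.r i) = C.r i := fun i =>
    Equiv.swap_apply_of_ne_of_ne (fun h => C.x_ne_r j i (by omega) h.symm)
      (fun h => C.x_ne_r (j + 1) i hj h.symm)
  unfold avg
  rw [← Finset.sum_neg_distrib]
  refine Finset.sum_nbij' (fun σ => σ * Equiv.swap (C.x j) (C.x (j + 1)))
    (fun σ => σ * Equiv.swap (C.x j) (C.x (j + 1))) ?_ ?_ ?_ ?_ ?_
  · intro σ hσ
    rw [Finset.mem_filter] at hσ ⊢
    refine ⟨Finset.mem_univ _, fun i => ?_⟩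
    rw [Equiv.Perm.mul_apply, hfix, hσ.2]
  · intro σ hσ
    rw [Finset.mem_filter] at hσ ⊢
    refine ⟨Finset.mem_univ _, fun i => ?_⟩
    rw [Equiv.Perm.mul_apply, hfix, hσ.2]
  · intro σ _
    simp only [mul_assoc, Equiv.swap_mul_self, mul_one]
  · intro σ _
    simp only [mul_assoc, Equiv.swap_mul_self, mul_one]
  · intro σ _
    rw [map_sym2_mul, Equiv.Perm.sign_mul, Equiv.Perm.sign_swap hne]
    push_cast
    ring

theorem avg_bd [Fintype V] (C : Setup V ι) (u : List (Sym2 V) → ℚ) (l : List (Sym2 V)) :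
    bd (avg C u) l = avg C (bd u) l := by
  unfold bd avg
  rw [Finset.sum_comm]
  refine Finset.sum_congr rfl fun σ _ => ?_
  rw [Finset.mul_sum]
  have hbij : Function.Bijective (Sym2.map (σ : V → V)) := by
    refine ⟨Sym2.map.injective σ.injective, fun e => ⟨Sym2.map (σ⁻¹ : Equiv.Perm V) e, ?_⟩⟩
    have := Sym2.map_map (g := (σ : V → V)) (f := ((σ⁻¹ : Equiv.Perm V) : V → V)) e
    rw [this]
    have h1 : (σ : V → V) ∘ ((σ⁻¹ : Equiv.Perm V) : V → V) = id := by
      funext v; simp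
    rw [h1, Sym2.map_id]
    rfl
  exact hbij.sum_comp
    (fun e : Sym2 V => ((Equiv.Perm.sign σ : ℤ) : ℚ) * u (e :: l.map (Sym2.map σ)))

theorem avg_zero [Fintype V] (C : Setup V ι) (u : List (Sym2 V) → ℚ) (l : List (Sym2 V))
    (h : ∀ σ : Equiv.Perm V, (∀ i, σ (C.r i) = C.r i) → u (l.map (Sym2.map σ)) = 0) :
    avg C u l = 0 := by
  classical
  unfold avg
  refine Finset.sum_eq_zero fun σ hσ => ?_
  rw [Finset.mem_filter] at hσ
  rw [h σ hσ.2, mul_zero]

theorem avg_sign [Fintype V] (C : Setup V ι) (z : List (Sym2 V) → ℚ)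
    (h : ∀ σ : Equiv.Perm V, (∀ i, σ (C.r i) = C.r i) → ∀ l,
        z (l.map (Sym2.map σ)) = ((Equiv.Perm.sign σ : ℤ) : ℚ) * z l) :
    ∃ κ : ℚ, κ ≠ 0 ∧ ∀ l, avg C z l = κ * z l := by
  classical
  refine ⟨(((univ : Finset (Equiv.Perm V)).filter
    (fun σ => ∀ i, σ (C.r i) = C.r i)).card : ℚ), ?_, fun l => ?_⟩
  · rw [Nat.cast_ne_zero, Finset.card_ne_zero]
    exact ⟨1, by simp⟩
  · unfold avg
    rw [Finset.cast_card, Finset.sum_mul]
    refine Finset.sum_congr (Finset.filter_congr_decidable _ _ _) fun σ hσ => ?_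
    rw [Finset.mem_filter] at hσ
    rw [h σ hσ.2, ← mul_assoc, one_mul]
    have h1 : ((Equiv.Perm.sign σ : ℤ) : ℚ) * ((Equiv.Perm.sign σ : ℤ) : ℚ) = 1 := by
      rcases Int.units_eq_one_or (Equiv.Perm.sign σ) with h | h <;> rw [h] <;> norm_num
    rw [h1, one_mul]

end T7

end Pool.Agent.H371R2.CE
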