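import Mathlib

set_option autoImplicit false

/-! Task T8 (helper784): the linear system has no solution. -/

namespace Pool.Agent.H371R2.CE

open Finset

theorem lin_contra {ι : Type} [Fintype ι] [DecidableEq ι] [Nonempty ι] (M : ℕ) (b0 : ι → ℕ)
    (hb0 : ∑ i, b0 i = M) (R : (ι → ℕ) → ℚ) (κ : ℚ)
    (hsys : ∀ b : ι → ℕ, ∑ i, b i = M →
      ∑ i, R (b + Pi.single i 1) = if b = b0 then κ else 0)
    (hzero : ∀ a : ι → ℕ, ∑ i, a i = M + 1 → (∃ i, a i = 0) → R a = 0)
    (h1 : Fintype.card ι = 1 → ∀ a : ι → ℕ, ∑ i, a i = M + 1 → R a = 0) : κ = 0 := by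
  have hsum : ∀ (b : ι → ℕ) (i : ι),
      ∑ j, (b + Pi.single i 1 : ι → ℕ) j = (∑ j, b j) + 1 := by
    intro b i
    simp only [Pi.add_apply, Finset.sum_add_distrib]
    congr 1
    simp
  by_cases hc : Fintype.card ι = 1
  · have h2 := hsys b0 hb0
    rw [if_pos rfl] at h2
    rw [← h2]
    exact Finset.sum_eq_zero fun i _ => h1 hc _ (by rw [hsum, hb0])
  · have hpos : 0 < Fintype.card ι := Fintype.card_pos
    obtain ⟨k, hk⟩ : ∃ k : ℕ, Fintype.card ι = k + 2 := ⟨Fintype.card ι - 2, by omega⟩
    obtain ⟨i0⟩ := (inferInstance : Nonempty ι)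
    set t : ι → ℚ := fun i => if i = i0 then -1 / ((k : ℚ) + 1) else 1 with ht
    have hk0 : ((k : ℚ) + 1) ≠ 0 := by positivity
    have ht0 : ∀ i, t i ≠ 0 := by
      intro i
      simp only [ht]
      split_ifs
      · exact div_ne_zero (by norm_num) hk0
      · exact one_ne_zero
    have htinv : ∑ i, (t i)⁻¹ = 0 := by
      rw [← Finset.add_sum_erase _ _ (Finset.mem_univ i0)]
      have h2 : ∑ x ∈ univ.erase i0, (t x)⁻¹ = ∑ x ∈ (univ : Finset ι).erase i0, (1 : ℚ) := by
        refine Finset.sum_congr rfl fun x hx => ?_
        simp only [ht]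
        rw [if_neg (Finset.ne_of_mem_erase hx), inv_one]
      rw [h2, Finset.sum_const, Finset.card_erase_of_mem (Finset.mem_univ _), Finset.card_univ, hk]
      simp only [ht, if_true]
      rw [show k + 2 - 1 = k + 1 by omega]
      simp
      field_simp
      ring
    set w : (ι → ℕ) → ℚ := fun b => ∏ j, t j ^ b j with hw
    have hw0 : ∀ b, w b ≠ 0 := fun b => Finset.prod_ne_zero_iff.mpr fun j _ => pow_ne_zero _ (ht0 j)
    have hws : ∀ b i, w (b + Pi.single i 1) = w b * t i := by
      intro b i
      simp only [hw, Pi.add_apply, pow_add, Finset.prod_mul_distrib]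
      congr 1
      rw [Finset.prod_eq_single i]
      · simp
      · intro j _ hj
        rw [Pi.single_eq_of_ne hj, pow_zero]
      · simp
    have key : ∀ i, ∑ b ∈ Finset.piAntidiag univ M, w b * R (b + Pi.single i 1) =
        ∑ a ∈ Finset.piAntidiag univ (M + 1), w a * R a * (t i)⁻¹ := by
      intro i
      refine Finset.sum_of_injOn (fun b => b + Pi.single i 1) ?_ ?_ ?_ ?_
      · intro a _ b _ hab
        exact add_right_cancel hab
      · intro b hb
        have hb' : ∑ j, b j = M := by simpa using hb
        have h3 : ∑ j, (b + Pi.single i 1 : ι → ℕ) j = M + 1 := by rw [hsum, hb']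
        simpa using h3
      · intro a ha hna
        have ha' : ∑ j, a j = M + 1 := by simpa using ha
        rcases Nat.eq_zero_or_pos (a i) with h0 | h0
        · rw [hzero a ha' ⟨i, h0⟩]; ring
        · exfalso
          apply hna
          refine ⟨a - Pi.single i 1, ?_, ?_⟩
          · have h3 : a - Pi.single i 1 + Pi.single i 1 = a := by
              funext j
              by_cases hj : j = i
              · subst hj; simp; omega
              · simp [hj]
            have h4 := hsum (a - Pi.single i 1) i
            rw [h3, ha'] at h4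
            have h5 : ∑ j, (a - Pi.single i 1 : ι → ℕ) j = M := by omega
            simpa using h5
          · funext j
            by_cases hj : j = i
            · subst hj; simp; omega
            · simp [hj]
      · intro b _
        rw [hws]
        field_simp [ht0 i]
    have h3 : ∑ b ∈ Finset.piAntidiag univ M, w b * ∑ i, R (b + Pi.single i 1) = w b0 * κ := by
      rw [Finset.sum_eq_single b0]
      · rw [hsys b0 hb0, if_pos rfl]
      · intro b hb hne
        have hb' : ∑ j, b j = M := by simpa using hb
        rw [hsys b hb', if_neg hne, mul_zero]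
      · intro hb
        exact absurd (by simpa using hb0) hb
    have h4 : ∑ b ∈ Finset.piAntidiag univ M, w b * ∑ i, R (b + Pi.single i 1) = 0 := by
      simp only [Finset.mul_sum]
      rw [Finset.sum_comm]
      simp only [key]
      rw [Finset.sum_comm]
      refine Finset.sum_eq_zero fun a _ => ?_
      rw [← Finset.mul_sum, htinv, mul_zero]
    rw [h4] at h3
    exact (mul_eq_zero.mp h3.symm).resolve_left (hw0 b0)

end Pool.Agent.H371R2.CE
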