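import Mathlib
import Pool.Agent.H371R2.CE.T2
import Pool.Agent.H371R2.CE.T3
import Pool.Agent.H371R2.CE.T4
import Pool.Agent.H371R2.CE.T5
import Pool.Agent.H371R2.CE.T6
import Pool.Agent.H371R2.CE.T7
import Pool.Agent.H371R2.CE.T8

set_option autoImplicit false

namespace Pool.Agent.H371R2.CE

open Finset Pool.Agent.H98R2.Ev

variable {V : Type} [DecidableEq V] {ι : Type} [DecidableEq ι]

/-- the sorted word with `a i` letters `i` -/
noncomputable def word [Fintype ι] (a : ι → ℕ) : List ι :=
  (univ : Finset ι).toList.flatMap (fun i => List.replicate (a i) i)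

theorem count_word [Fintype ι] (a : ι → ℕ) (i : ι) : (word a).count i = a i := by
  unfold word
  rw [List.count_flatMap]
  have h : (List.map (List.count i ∘ fun i => List.replicate (a i) i) (univ : Finset ι).toList)
      = List.map (fun j => if j = i then a j else 0) (univ : Finset ι).toList := by
    apply List.map_congr_left
    intro j _
    simp only [Function.comp, List.count_replicate, beq_iff_eq]
  rw [h, Finset.sum_map_toList, Finset.sum_ite_eq' univ i a]
  simp

theorem length_word [Fintype ι] (a : ι → ℕ) : (word a).length = ∑ i, a i := by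
  unfold word
  rw [List.length_flatMap, Finset.sum_map_toList]
  simp

theorem SG_zero (x : ℕ → V) (γ : List ι) (m : ℕ) (blk : ι → Finset V)
    (u : List (Sym2 V) → ℚ) (h : ∀ L, Gr x γ m blk L → u L = 0) :
    SG x γ m blk u = 0 := by
  rw [SG_congr x γ m blk u (fun L => 0 * u L) (by
    intro L hL; rw [h L hL]; simp), SG_mul]
  simp

theorem core [Fintype V] [Fintype ι] [Nonempty ι] (C : Setup V ι) (A : Finset (Sym2 V))
    (D : Finset (Sym2 V) → Prop) (hNE : NE A D)
    (hdown : ∀ S T : Finset (Sym2 V), T ⊆ S → S ⊆ A → D S → D T)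
    (b0 : ι → ℕ) (hb0 : ∑ i, b0 i + 1 = C.N) (hdiag : ∀ v, s(v, v) ∉ A)
    (hstar : ∀ l, IsStar C b0 l → l.toFinset ⊆ A ∧ D l.toFinset)
    (hcross : ∀ β : List ι, β.length + 1 = C.N → ∀ L, Gr C.x β 0 (blk0 C) L →
      ∀ i i', i ≠ i' → ∀ v ∈ fb C.x β 0 (blk0 C) i, ∀ w ∈ fb C.x β 0 (blk0 C) i',
      ∀ σ : Equiv.Perm V, ¬ D (((s(v, w) :: L).map (Sym2.map σ)).toFinset))
    (hiso : ∀ γ : List ι, γ.length = C.N → (Fintype.card ι = 1 ∨ ∃ i, i ∉ γ) →
      ∀ L, Gr C.x γ 0 (blk0 C) L → ∀ σ : Equiv.Perm V, ¬ D ((L.map (Sym2.map σ)).toFinset)) :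
    False := by
  obtain ⟨z, κ, hκ, hz, hz0, hzσ, hzs, hzv⟩ := cycle_exists C b0 hb0
  have hzsupp : SuppOn A D z := fun l hl => hstar l (hzs l hl)
  obtain ⟨u, hu, hus, hub⟩ := ne_exact hNE hdown z hz hzsupp hz0
  obtain ⟨κ', hκ', hav⟩ := avg_sign C z hzσ
  have hw : Alt (avg C u) := avg_alt C hu
  have hwa : Anti C 0 (avg C u) := avg_anti C u
  have hwb : bd (avg C u) = fun l => κ' * z l := by
    funext l
    rw [avg_bd]
    have : bd u = z := funext hub
    rw [this, hav]
  have hwzero : ∀ l, (∀ σ : Equiv.Perm V, ¬ D ((l.map (Sym2.map σ)).toFinset)) →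
      avg C u l = 0 := by
    intro l hl
    apply avg_zero
    intro σ _
    by_contra hne
    exact hl σ (hus _ hne).2
  have hwdiag : ∀ v L, avg C u (s(v, v) :: L) = 0 := by
    intro v L
    apply avg_zero
    intro σ _
    by_contra hne
    have h1 := (hus _ hne).1
    apply hdiag (σ v)
    apply h1
    simp
  set M := ∑ i, b0 i with hM
  set R : (ι → ℕ) → ℚ := fun a => SG C.x (word a) 0 (blk0 C) (avg C u) with hR
  have hblk : ∀ i, ∀ v ∈ blk0 C i, ∀ j, 0 ≤ j → j < C.N → v ≠ C.x j := by
    intro i v hv j _ hj h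
    simp only [blk0, Finset.mem_singleton] at hv
    exact C.x_ne_r j i hj (h ▸ hv)
  have key : (-1 : ℚ) ^ M * (κ' * κ) = 0 := by
    apply lin_contra M b0 hM.symm R
    · intro b hb
      have hlen : (word b).length + 1 = C.N := by rw [length_word, hb, hM, hb0]
      have h1 := main_rel C (word b) hlen (avg C u) hw hwdiag (by
        intro L hL i i' hii v hv w hw'
        exact hwzero _ (hcross _ hlen L hL i i' hii v hv w hw'))
      have h2 : ∀ i, SG C.x (word b ++ [i]) 0 (blk0 C) (avg C u) = R (b + Pi.single i 1) := by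
        intro i
        apply SG_perm C _ 0 (blk0 C) _ hblk _ hw hwa
        · rw [List.perm_iff_count]
          intro j
          rw [List.count_append, count_word, count_word, List.count_singleton]
          simp only [Pi.add_apply, Pi.single_apply, beq_iff_eq]
          congr 1
          by_cases h : i = j
          · simp [h]
          · simp [h, Ne.symm h]
        · simp only [List.length_append, List.length_singleton]
          omega
      rw [Finset.sum_congr rfl (fun i _ => h2 i)] at h1
      rw [hwb, SG_mul, hzv _ hlen, length_word, hb] at h1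
      have h3 : (∀ i, (word b).count i = b0 i) ↔ b = b0 := by
        simp only [count_word]
        exact ⟨fun h => funext h, fun h i => by rw [h]⟩
      have h4 : ((-1 : ℚ) ^ M) * ((-1) ^ M) = 1 := by
        rw [← mul_pow]; simp
      have h5 : ∑ i, R (b + Pi.single i 1) =
          (-1) ^ M * (κ' * (if ∀ i, (word b).count i = b0 i then κ else 0)) := by
        rw [h1, ← mul_assoc, h4, one_mul]
      rw [h5]
      by_cases h : b = b0
      · rw [if_pos h, if_pos (h3.2 h)]
      · rw [if_neg h, if_neg (fun h' => h (h3.1 h'))]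
        simp
    · intro a ha ⟨i, hi⟩
      apply SG_zero
      intro L hL
      apply hwzero
      intro σ
      refine hiso (word a) (by rw [length_word, ha, hb0]) (Or.inr ⟨i, ?_⟩) L hL σ
      rw [← List.count_eq_zero, count_word, hi]
    · intro h1 a ha
      apply SG_zero
      intro L hL
      apply hwzero
      intro σ
      exact hiso (word a) (by rw [length_word, ha, hb0]) (Or.inl h1) L hL σ
  have : (-1 : ℚ) ^ M ≠ 0 := pow_ne_zero _ (by norm_num)
  rcases mul_eq_zero.1 key with h | h
  · exact this h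
  · exact (mul_ne_zero hκ' hκ) h

end Pool.Agent.H371R2.CE
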