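import Mathlib
import Pool.Agent.H371R2.CE.Defs

set_option autoImplicit false

/-! Task T10: adding an edge, relabelling. -/

namespace Pool.Agent.H371R2.CE

open Finset Pool.Agent.H98R2.Ev

section T10

variable {V : Type} [Fintype V] [DecidableEq V]

theorem add_edge_acyclic (G : SimpleGraph V) (hG : G.IsAcyclic) (a b : V)
    (hab : ¬ G.Reachable a b) :
    (G ⊔ SimpleGraph.fromEdgeSet {s(a, b)}).IsAcyclic :=
  SimpleGraph.IsAcyclic.sup_edge_of_not_reachable hab hG

theorem add_edge_class (G : SimpleGraph V) (f : V → V)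
    (hf : ∀ u v, G.Reachable u v ↔ f u = f v) (a b : V) :
    ∀ u v, (G ⊔ SimpleGraph.fromEdgeSet {s(a, b)}).Reachable u v ↔
      (if f u = f b then f a else f u) = (if f v = f b then f a else f v) := by
  set G' := G ⊔ SimpleGraph.fromEdgeSet {s(a, b)} with hG'
  set g : V → V := fun u => if f u = f b then f a else f u with hg
  have hadj : ∀ u v, G'.Adj u v → g u = g v := by
    intro u v h
    rw [hG', SimpleGraph.sup_adj] at h
    rcases h with h | h
    · have : f u = f v := (hf u v).mp h.reachable
      simp only [hg, this]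
    · rw [SimpleGraph.fromEdgeSet_adj] at h
      have h1 := h.1
      rw [Set.mem_singleton_iff, Sym2.eq_iff] at h1
      have hab : g a = f a := by
        simp only [hg]; split_ifs <;> rfl
      have hbb : g b = f a := by simp only [hg, if_true]
      rcases h1 with ⟨rfl, rfl⟩ | ⟨rfl, rfl⟩
      · rw [hab, hbb]
      · rw [hab, hbb]
  have hreach : G'.Reachable a b := by
    by_cases hab : a = b
    · rw [hab]
    · apply SimpleGraph.Adj.reachable
      rw [hG', SimpleGraph.sup_adj, SimpleGraph.fromEdgeSet_adj]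
      exact Or.inr ⟨rfl, hab⟩
  have hle : ∀ u v, f u = f v → G'.Reachable u v := fun u v h =>
    ((hf u v).mpr h).mono le_sup_left
  have htoA : ∀ u, f u = f b → G'.Reachable u a := fun u h =>
    (hle u b h).trans hreach.symm
  intro u v
  change G'.Reachable u v ↔ g u = g v
  constructor
  · rintro ⟨w⟩
    induction w with
    | nil => rfl
    | cons h _ ih => exact (hadj _ _ h).trans ih
  · intro h
    have key : ∀ u, G'.Reachable u (if f u = f b then a else u) := by
      intro u
      split_ifs with h1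
      · exact htoA u h1
      · exact SimpleGraph.Reachable.refl _
    have key2 : ∀ u, f (if f u = f b then a else u) = g u := by
      intro u
      simp only [hg]
      split_ifs <;> rfl
    have h3 : G'.Reachable (if f u = f b then a else u) (if f v = f b then a else v) := by
      apply hle
      rw [key2, key2, h]
    exact (key u).trans (h3.trans (key v).symm)

theorem gr_insert (S : Finset (Sym2 V)) (e : Sym2 V) :
    gr (insert e S) = gr S ⊔ SimpleGraph.fromEdgeSet {e} := by
  unfold gr
  rw [Finset.coe_insert, Set.insert_eq, ← SimpleGraph.fromEdgeSet_union, Set.union_comm]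

theorem gr_image (S : Finset (Sym2 V)) (σ : Equiv.Perm V) :
    gr (S.image (Sym2.map σ)) = (gr S).map σ.toEmbedding := by
  ext u v
  simp only [gr, SimpleGraph.fromEdgeSet_adj, SimpleGraph.map_adj, Finset.coe_image]
  constructor
  · rintro ⟨⟨e, he, heq⟩, hne⟩
    induction e using Sym2.ind with
    | _ a b =>
      rw [Sym2.map_mk, Sym2.eq_iff] at heq
      rcases heq with ⟨h1, h2⟩ | ⟨h1, h2⟩
      · exact ⟨a, b, ⟨he, fun h => hne (by rw [← h1, ← h2]; simp [h])⟩, h1, h2⟩
      · refine ⟨b, a, ⟨by rw [Sym2.eq_swap]; exact he, fun h => hne (by rw [← h1, ← h2]; simp [h])⟩, h2, h1⟩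
  · rintro ⟨a, b, ⟨he, hab⟩, rfl, rfl⟩
    exact ⟨⟨s(a, b), he, rfl⟩, fun h => hab (σ.injective h)⟩

theorem bad_map (k : ℕ) (G : SimpleGraph V) (σ : Equiv.Perm V) (h : Bad k G) :
    Bad k (G.map σ.toEmbedding) := by
  have φ : G ≃g G.map σ.toEmbedding := SimpleGraph.Iso.map σ G
  obtain ⟨h1, h2, h3⟩ := h
  refine ⟨φ.isAcyclic_iff.mp h1, ?_, ?_⟩
  · rw [← h2]
    exact (Nat.card_congr φ.connectedComponentEquiv).symm
  · rcases h3 with h3 | ⟨v, hv⟩
    · exact Or.inl h3
    · refine Or.inr ⟨φ v, fun w hw => ?_⟩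
      obtain ⟨w', rfl⟩ := φ.surjective w
      exact hv w' (φ.map_adj_iff.mp hw)

end T10

end Pool.Agent.H371R2.CE
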