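import Mathlib
import Pool.Agent.H371R2.CE.Defs

set_option autoImplicit false

namespace Pool.Agent.H371R2.CE

open Finset Pool.Agent.H98R2.Ev

section T10

variable {V : Type} [Fintype V] [DecidableEq V]

omit [Fintype V] [DecidableEq V] in
theorem t10b_adj (f : V → V) (u v : V) : (starG f).Adj u v ↔ u ≠ v ∧ (f u = v ∨ f v = u) := by
  unfold starG
  rw [SimpleGraph.fromRel_adj]

omit [Fintype V] [DecidableEq V] in
theorem t10b_adj_eq (f : V → V) (hf : ∀ v, f (f v) = f v) {u v : V} (h : (starG f).Adj u v) :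
    f u = f v := by
  rw [t10b_adj] at h
  rcases h with ⟨-, rfl | rfl⟩
  · exact (hf u).symm
  · exact hf v

omit [Fintype V] [DecidableEq V] in
theorem t10b_nbr (f : V → V) (hf : ∀ v, f (f v) = f v) {u w : V} (hu : f u ≠ u)
    (h : (starG f).Adj u w) : w = f u := by
  rw [t10b_adj] at h
  rcases h with ⟨-, h | h⟩
  · exact h.symm
  · exact absurd (by rw [← h, hf]) hu

omit [Fintype V] [DecidableEq V] in
theorem t10b_bridge (f : V → V) (hf : ∀ v, f (f v) = f v) {u : V} (hu : f u ≠ u) :
    (starG f).IsBridge s(u, f u) := by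
  rw [SimpleGraph.isBridge_iff]
  intro hr
  obtain ⟨w⟩ := hr
  generalize hz : f u = z at w hu
  cases w with
  | nil => exact hu rfl
  | cons h p =>
    have h1 := h
    rw [SimpleGraph.deleteEdges_adj] at h1
    have h2 := t10b_nbr f hf (by rw [hz]; exact hu) h1.1
    apply h1.2
    rw [h2, hz]
    rfl

theorem starG_acyclic (f : V → V) (hf : ∀ v, f (f v) = f v) : (starG f).IsAcyclic := by
  rw [SimpleGraph.isAcyclic_iff_forall_adj_isBridge]
  intro u v h
  have h1 := h
  rw [t10b_adj] at h1
  rcases h1 with ⟨hne, rfl | rfl⟩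
  · exact t10b_bridge f hf (fun h => hne h.symm)
  · rw [Sym2.eq_swap]
    exact t10b_bridge f hf hne

omit [Fintype V] [DecidableEq V] in
theorem t10b_reach (f : V → V) (u : V) : (starG f).Reachable u (f u) := by
  by_cases hu : f u = u
  · rw [hu]
  · refine SimpleGraph.Adj.reachable ?_
    rw [t10b_adj]
    exact ⟨fun h => hu h.symm, Or.inl rfl⟩

theorem starG_class (f : V → V) (hf : ∀ v, f (f v) = f v) (u v : V) :
    (starG f).Reachable u v ↔ f u = f v := by
  constructor
  · rintro ⟨w⟩
    induction w with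
    | nil => rfl
    | cons h p ih => exact (t10b_adj_eq f hf h).trans ih
  · intro h
    exact (t10b_reach f u).trans (h ▸ (t10b_reach f v).symm)

end T10

end Pool.Agent.H371R2.CE
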