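import Mathlib
import Pool.Agent.H371R2.CE.Defs

set_option autoImplicit false

/-!
Task T11 of helper371: growth lists give forests (helper221).
-/

namespace Pool.Agent.H371R2.CE

open Finset

section T11

variable {V : Type} [DecidableEq V] {ι : Type} [DecidableEq ι]

theorem T11_mem_upd (blk : ι → Finset V) (i : ι) (v : V) (k : ι) (w : V) :
    w ∈ upd blk i v k ↔ w ∈ blk k ∨ (k = i ∧ w = v) := by
  unfold upd
  by_cases h : k = i
  · subst h
    simp [or_comm]
  · simp [Function.update_of_ne h, h]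

theorem T11_mem_fb_gen (x : ℕ → V) (γ : List ι) : ∀ (m : ℕ) (blk : ι → Finset V) (i : ι) (v : V),
    v ∈ fb x γ m blk i ↔ v ∈ blk i ∨ ∃ j, γ[j]? = some i ∧ v = x (m + j) := by
  induction γ with
  | nil => intro m blk i v; simp [fb]
  | cons a γ ih =>
    intro m blk i v
    rw [fb, ih, T11_mem_upd]
    constructor
    · rintro ((h | ⟨h1, h2⟩) | ⟨j, h1, h2⟩)
      · exact Or.inl h
      · exact Or.inr ⟨0, by simp [h1], by simpa using h2⟩
      · refine Or.inr ⟨j + 1, by simpa using h1, ?_⟩
        rw [h2]; congr 1; omega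
    · rintro (h | ⟨j, h1, h2⟩)
      · exact Or.inl (Or.inl h)
      · cases j with
        | zero =>
          have h3 : a = i := by simpa using h1
          exact Or.inl (Or.inr ⟨h3.symm, by simpa using h2⟩)
        | succ j =>
          refine Or.inr ⟨j, by simpa using h1, ?_⟩
          rw [h2]; congr 1; omega

/-- description of the final blocks -/
theorem mem_fb (C : Setup V ι) (γ : List ι) (_hγ : γ.length ≤ C.N) (i : ι) (v : V) :
    v ∈ fb C.x γ 0 (blk0 C) i ↔ v = C.r i ∨ ∃ j, γ[j]? = some i ∧ v = C.x j := by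
  rw [T11_mem_fb_gen]
  simp [blk0]

theorem T11_gr_cons (e : Sym2 V) (L : List (Sym2 V)) :
    gr (e :: L).toFinset = SimpleGraph.fromEdgeSet {e} ⊔ gr L.toFinset := by
  unfold gr
  rw [List.toFinset_cons, Finset.coe_insert, Set.insert_eq, SimpleGraph.fromEdgeSet_union]

theorem T11_growth_acyclic_gen (C : Setup V ι) (γ : List ι) : ∀ (m : ℕ)
    (_hm : m + γ.length ≤ C.N) (blk : ι → Finset V)
    (_hblk : ∀ i, ∀ v ∈ blk i, ∀ j, m ≤ j → j < C.N → v ≠ C.x j)
    (G : SimpleGraph V) (_hG : G.IsAcyclic)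
    (_hiso : ∀ j, m ≤ j → j < C.N → ∀ w, ¬ G.Adj (C.x j) w)
    (L : List (Sym2 V)) (_hL : Gr C.x γ m blk L), (G ⊔ gr L.toFinset).IsAcyclic := by
  induction γ with
  | nil =>
    intro m hm blk hblk G hG hiso L hL
    have : L = [] := hL
    subst this
    simpa [gr] using hG
  | cons i γ ih =>
    intro m hm blk hblk G hG hiso L hL
    obtain ⟨q, hq, L', rfl, hL'⟩ := hL
    rw [T11_gr_cons, ← sup_assoc]
    have hmN : m < C.N := by simp at hm; omega
    have hqx : q ≠ C.x m := hblk i q hq m le_rfl hmN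
    refine ih (m + 1) (by simp at hm; omega) (upd blk i (C.x m)) ?_ _ ?_ ?_ L' hL'
    · intro i' v hv j hj hjN
      rw [T11_mem_upd] at hv
      rcases hv with hv | ⟨_, rfl⟩
      · exact hblk i' v hv j (by omega) hjN
      · intro h
        have := C.x_inj m j hmN hjN h
        omega
    · have hnr : ¬ G.Reachable (C.x m) q := by
        rintro ⟨w⟩
        cases w with
        | nil => exact hqx rfl
        | cons h _ => exact hiso m le_rfl hmN _ h
      exact hG.sup_edge_of_not_reachable hnr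
    · intro j hj hjN w hadj
      rw [SimpleGraph.sup_adj] at hadj
      rcases hadj with hadj | hadj
      · exact hiso j (by omega) hjN w hadj
      · rw [SimpleGraph.fromEdgeSet_adj] at hadj
        have h1 := hadj.1
        rw [Set.mem_singleton_iff, Sym2.eq_iff] at h1
        rcases h1 with ⟨h1, _⟩ | ⟨h1, _⟩
        · have := C.x_inj j m hjN hmN h1
          omega
        · exact hblk i q hq j (by omega) hjN h1.symm

theorem growth_acyclic [Fintype V] (C : Setup V ι) (γ : List ι) (hγ : γ.length ≤ C.N)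
    (L : List (Sym2 V)) (hL : Gr C.x γ 0 (blk0 C) L) : (gr L.toFinset).IsAcyclic := by
  have h := T11_growth_acyclic_gen C γ 0 (by omega) (blk0 C) (by
    intro i v hv j _ hj
    simp only [blk0, Finset.mem_singleton] at hv
    subst hv
    exact (C.x_ne_r j i hj).symm) ⊥ SimpleGraph.isAcyclic_bot (by simp) L hL
  simpa using h

theorem T11_fb_mono (x : ℕ → V) (γ : List ι) (m : ℕ) (blk : ι → Finset V) (i : ι) (v : V)
    (h : v ∈ blk i) : v ∈ fb x γ m blk i := by
  rw [T11_mem_fb_gen]
  exact Or.inl h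

theorem T11_edge_in_block (x : ℕ → V) (γ : List ι) : ∀ (m : ℕ) (blk : ι → Finset V)
    (L : List (Sym2 V)) (_hL : Gr x γ m blk L) (a b : V) (_h : s(a, b) ∈ L),
    ∃ i, a ∈ fb x γ m blk i ∧ b ∈ fb x γ m blk i := by
  induction γ with
  | nil =>
    intro m blk L hL a b h
    have : L = [] := hL
    subst this
    simp at h
  | cons i γ ih =>
    intro m blk L hL a b h
    obtain ⟨q, hq, L', rfl, hL'⟩ := hL
    rw [List.mem_cons] at h
    rcases h with h | h
    · have hx : x m ∈ fb x (i :: γ) m blk i := by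
        rw [fb]
        apply T11_fb_mono
        rw [T11_mem_upd]
        exact Or.inr ⟨rfl, rfl⟩
      have hq' : q ∈ fb x (i :: γ) m blk i := T11_fb_mono _ _ _ _ _ _ hq
      rw [Sym2.eq_iff] at h
      rcases h with ⟨rfl, rfl⟩ | ⟨rfl, rfl⟩
      · exact ⟨i, hx, hq'⟩
      · exact ⟨i, hq', hx⟩
    · exact ih (m + 1) _ L' hL' a b h

theorem T11_block_conn (x : ℕ → V) (G : SimpleGraph V) (γ : List ι) : ∀ (m : ℕ)
    (blk : ι → Finset V)
    (L : List (Sym2 V)) (_hL : Gr x γ m blk L) (_hG : gr L.toFinset ≤ G)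
    (_hb : ∀ i, ∀ v ∈ blk i, ∀ w ∈ blk i, G.Reachable v w),
    ∀ i, ∀ v ∈ fb x γ m blk i, ∀ w ∈ fb x γ m blk i, G.Reachable v w := by
  induction γ with
  | nil =>
    intro m blk L hL hG hb
    exact hb
  | cons a γ ih =>
    intro m blk L hL hG hb
    obtain ⟨q, hq, L', rfl, hL'⟩ := hL
    rw [T11_gr_cons] at hG
    have hxq : G.Reachable (x m) q := by
      by_cases h : x m = q
      · rw [h]
      · apply SimpleGraph.Adj.reachable
        apply hG
        rw [SimpleGraph.sup_adj, SimpleGraph.fromEdgeSet_adj]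
        exact Or.inl ⟨rfl, h⟩
    have key : ∀ v ∈ upd blk a (x m) a, G.Reachable v q := by
      intro v hv
      rw [T11_mem_upd] at hv
      rcases hv with hv | ⟨_, rfl⟩
      · exact hb a v hv q hq
      · exact hxq
    refine ih (m + 1) _ L' hL' (le_trans le_sup_right hG) ?_
    intro i v hv w hw
    by_cases hi : i = a
    · subst hi
      exact (key v hv).trans (key w hw).symm
    · rw [T11_mem_upd] at hv hw
      have hv' : v ∈ blk i := by tauto
      have hw' : w ∈ blk i := by tauto
      exact hb i v hv' w hw'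

theorem T11_blocks_disj (C : Setup V ι) (γ : List ι) (hγ : γ.length ≤ C.N) (i i' : ι) (v : V)
    (h : v ∈ fb C.x γ 0 (blk0 C) i) (h' : v ∈ fb C.x γ 0 (blk0 C) i') : i = i' := by
  rw [mem_fb C γ hγ] at h h'
  have lt : ∀ j k, γ[j]? = some k → j < C.N := by
    intro j k hj
    have := (List.getElem?_eq_some_iff.mp hj).1
    omega
  rcases h with h | ⟨j, h1, h2⟩ <;> rcases h' with h' | ⟨j', h1', h2'⟩
  · exact C.r_inj (h.symm.trans h')
  · exact absurd (h2'.symm.trans h) (C.x_ne_r j' i (lt _ _ h1'))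
  · exact absurd (h2.symm.trans h') (C.x_ne_r j i' (lt _ _ h1))
  · have := C.x_inj j j' (lt _ _ h1) (lt _ _ h1') (h2.symm.trans h2')
    subst this
    rw [h1] at h1'
    exact Option.some.inj h1'

theorem growth_reach [Fintype V] (C : Setup V ι) (γ : List ι) (hγ : γ.length ≤ C.N)
    (L : List (Sym2 V)) (hL : Gr C.x γ 0 (blk0 C) L) (u v : V) :
    (gr L.toFinset).Reachable u v ↔
      u = v ∨ ∃ i, u ∈ fb C.x γ 0 (blk0 C) i ∧ v ∈ fb C.x γ 0 (blk0 C) i := by
  constructor
  · rintro ⟨w⟩
    induction w with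
    | nil => exact Or.inl rfl
    | @cons a b c hadj _ ih =>
      unfold gr at hadj
      rw [SimpleGraph.fromEdgeSet_adj] at hadj
      have hmem : s(a, b) ∈ L := by simpa using hadj.1
      obtain ⟨i, ha, hb⟩ := T11_edge_in_block C.x γ 0 (blk0 C) L hL a b hmem
      right
      rcases ih with rfl | ⟨i', hb', hc'⟩
      · exact ⟨i, ha, hb⟩
      · have := T11_blocks_disj C γ hγ i i' b hb hb'
        subst this
        exact ⟨i, ha, hc'⟩
  · rintro (rfl | ⟨i, hu, hv⟩)
    · exact SimpleGraph.Reachable.refl _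
    · refine T11_block_conn C.x (gr L.toFinset) γ 0 (blk0 C) L hL le_rfl ?_ i u hu v hv
      intro i v hv w hw
      simp only [blk0, Finset.mem_singleton] at hv hw
      rw [hv, hw]

end T11

end Pool.Agent.H371R2.CE
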