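import Mathlib
import Pool.Agent.H371R2.CE.Defs
import Pool.Agent.H371R2.CE.T10
import Pool.Agent.H371R2.CE.T11

set_option autoImplicit false

/-!
The excluded forests.
-/

namespace Pool.Agent.H371R2.CE

open Finset Pool.Agent.H98R2.Ev

section T12

variable {V : Type} [DecidableEq V] {ι : Type} [DecidableEq ι]

lemma card_cc [Fintype V] (G : SimpleGraph V) (f : V → V)
    (hf : ∀ u v, G.Reachable u v ↔ f u = f v) :
    Nat.card G.ConnectedComponent = ((univ : Finset V).image f).card := by
  classical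
  let g : G.ConnectedComponent → V := SimpleGraph.ConnectedComponent.lift f
    (fun u v p _ => (hf u v).1 p.reachable)
  have hg : ∀ v, g (G.connectedComponentMk v) = f v := fun v => rfl
  have hinj : Function.Injective g := by
    intro c c'
    induction c using SimpleGraph.ConnectedComponent.ind with
    | _ u =>
      induction c' using SimpleGraph.ConnectedComponent.ind with
      | _ v =>
        intro h
        rw [hg, hg, ← hf] at h
        exact SimpleGraph.ConnectedComponent.sound h
  have hrange : Set.range g = (((univ : Finset V).image f : Finset V) : Set V) := by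
    ext y
    simp only [Set.mem_range, Finset.coe_image, Finset.coe_univ, Set.image_univ]
    constructor
    · rintro ⟨c, rfl⟩
      induction c using SimpleGraph.ConnectedComponent.ind with
      | _ v => exact ⟨v, (hg v).symm⟩
    · rintro ⟨v, rfl⟩
      exact ⟨G.connectedComponentMk v, hg v⟩
  have h1 : Nat.card G.ConnectedComponent = Nat.card (Set.range g) :=
    Nat.card_congr (Equiv.ofInjective g hinj)
  rw [h1, hrange, Nat.card_coe_set_eq, Set.ncard_coe_finset]

lemma fb_disj (C : Setup V ι) (γ : List ι) (hγ : γ.length ≤ C.N) {i i' : ι} {v : V}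
    (h : v ∈ fb C.x γ 0 (blk0 C) i) (h' : v ∈ fb C.x γ 0 (blk0 C) i') : i = i' := by
  have hlt : ∀ {j : ℕ} {a : ι}, γ[j]? = some a → j < C.N := by
    intro j a hj
    have := (List.getElem?_eq_some_iff.1 hj).1
    omega
  rcases (mem_fb C γ hγ i v).1 h with rfl | ⟨j, hj, rfl⟩
  · rcases (mem_fb C γ hγ i' _).1 h' with h2 | ⟨j, hj, h2⟩
    · exact C.r_inj h2
    · exact absurd h2.symm (C.x_ne_r j i (hlt hj))
  · rcases (mem_fb C γ hγ i' _).1 h' with h2 | ⟨j', hj', h2⟩
    · exact absurd h2 (C.x_ne_r j i' (hlt hj))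
    · have := C.x_inj j j' (hlt hj) (hlt hj') h2
      subst this
      rw [hj] at hj'
      exact Option.some.inj hj'

/-- the root of the block of a vertex -/
noncomputable def cls (C : Setup V ι) (γ : List ι) (v : V) : V := by
  classical exact if h : ∃ i, v ∈ fb C.x γ 0 (blk0 C) i then C.r h.choose else v

lemma cls_of_mem (C : Setup V ι) (γ : List ι) (hγ : γ.length ≤ C.N) {i : ι} {v : V}
    (h : v ∈ fb C.x γ 0 (blk0 C) i) : cls C γ v = C.r i := by
  unfold cls
  have h' : ∃ i, v ∈ fb C.x γ 0 (blk0 C) i := ⟨i, h⟩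
  rw [dif_pos h', fb_disj C γ hγ h'.choose_spec h]

lemma cls_of_not (C : Setup V ι) (γ : List ι) {v : V}
    (h : ∀ i, v ∉ fb C.x γ 0 (blk0 C) i) : cls C γ v = v := by
  unfold cls
  rw [dif_neg (by push Not; exact h)]

lemma root_mem (C : Setup V ι) (γ : List ι) (hγ : γ.length ≤ C.N) (i : ι) :
    C.r i ∈ fb C.x γ 0 (blk0 C) i := (mem_fb C γ hγ i _).2 (Or.inl rfl)

lemma cls_reach [Fintype V] (C : Setup V ι) (γ : List ι) (hγ : γ.length ≤ C.N)
    (L : List (Sym2 V)) (hL : Gr C.x γ 0 (blk0 C) L) (u v : V) :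
    (gr L.toFinset).Reachable u v ↔ cls C γ u = cls C γ v := by
  rw [growth_reach C γ hγ L hL]
  constructor
  · rintro (rfl | ⟨i, h1, h2⟩)
    · rfl
    · rw [cls_of_mem C γ hγ h1, cls_of_mem C γ hγ h2]
  · intro h
    by_cases hu : ∃ i, u ∈ fb C.x γ 0 (blk0 C) i
    · obtain ⟨i, hi⟩ := hu
      rw [cls_of_mem C γ hγ hi] at h
      by_cases hv : ∃ i, v ∈ fb C.x γ 0 (blk0 C) i
      · obtain ⟨i', hi'⟩ := hv
        rw [cls_of_mem C γ hγ hi'] at h
        have := C.r_inj h
        subst this
        exact Or.inr ⟨i, hi, hi'⟩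
      · push Not at hv
        rw [cls_of_not C γ hv] at h
        exact absurd (h ▸ root_mem C γ hγ i) (hv i)
    · push Not at hu
      rw [cls_of_not C γ hu] at h
      by_cases hv : ∃ i, v ∈ fb C.x γ 0 (blk0 C) i
      · obtain ⟨i', hi'⟩ := hv
        rw [cls_of_mem C γ hγ hi'] at h
        exact absurd (h ▸ root_mem C γ hγ i') (hu i')
      · push Not at hv
        rw [cls_of_not C γ hv] at h
        exact Or.inl h

theorem bad_cross [Fintype V] [Fintype ι] (C : Setup V ι) (k : ℕ)
    (hk : Fintype.card ι = k + 1) (β : List ι) (hβ : β.length + 1 = C.N)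
    (L : List (Sym2 V)) (hL : Gr C.x β 0 (blk0 C) L) (i i' : ι) (hi : i ≠ i') (v w : V)
    (hv : v ∈ fb C.x β 0 (blk0 C) i) (hw : w ∈ fb C.x β 0 (blk0 C) i') :
    Bad k (gr (s(v, w) :: L).toFinset) := by
  have hβ' : β.length ≤ C.N := by omega
  have hf := cls_reach C β hβ' L hL
  have hac := growth_acyclic C β hβ' L hL
  have hv1 := cls_of_mem C β hβ' hv
  have hw1 := cls_of_mem C β hβ' hw
  have hvw : ¬ (gr L.toFinset).Reachable v w := by
    rw [hf, hv1, hw1]
    exact fun h => hi (C.r_inj h)
  have hcl := add_edge_class (gr L.toFinset) (cls C β) hf v w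
  have heq : gr (s(v, w) :: L).toFinset =
      gr L.toFinset ⊔ SimpleGraph.fromEdgeSet {s(v, w)} := by
    rw [List.toFinset_cons]; exact gr_insert _ _
  -- the last vertex
  have hlast : ∀ j, C.x β.length ∉ fb C.x β 0 (blk0 C) j := by
    intro j hj
    rcases (mem_fb C β hβ' j _).1 hj with h | ⟨j', hj', h⟩
    · exact C.x_ne_r _ j (by omega) h
    · have hj'' := (List.getElem?_eq_some_iff.1 hj').1
      have := C.x_inj _ _ (by omega) (by omega) h
      omega
  have hcls : ∀ u, (∃ j, u ∈ fb C.x β 0 (blk0 C) j) ∨ u = C.x β.length := by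
    intro u
    rcases C.cover u with ⟨j, rfl⟩ | ⟨j, hj, rfl⟩
    · exact Or.inl ⟨j, root_mem C β hβ' j⟩
    · rcases Nat.lt_or_ge j β.length with h | h
      · refine Or.inl ⟨β[j], (mem_fb C β hβ' _ _).2 (Or.inr ⟨j, ?_, rfl⟩)⟩
        exact List.getElem?_eq_getElem h
      · right
        congr 1
        omega
  have hxl : cls C β (C.x β.length) = C.x β.length := cls_of_not C β hlast
  have hxr : ∀ j, C.x β.length ≠ C.r j := fun j => C.x_ne_r _ j (by omega)
  rw [heq]
  refine ⟨add_edge_acyclic _ hac v w hvw, ?_, Or.inr ⟨C.x β.length, ?_⟩⟩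
  · rw [card_cc _ _ hcl]
    have himg : (univ : Finset V).image (fun u =>
        if cls C β u = cls C β w then cls C β v else cls C β u) =
        insert (C.x β.length) ((univ.erase i').image C.r) := by
      ext y
      simp only [mem_image, mem_univ, true_and, mem_insert, mem_erase, and_true]
      rw [hv1, hw1]
      constructor
      · rintro ⟨u, rfl⟩
        rcases hcls u with ⟨j, hj⟩ | rfl
        · rw [cls_of_mem C β hβ' hj]
          right
          split_ifs with h
          · exact ⟨i, hi, rfl⟩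
          · exact ⟨j, fun hji => h (by rw [hji]), rfl⟩
        · left
          rw [hxl, if_neg (hxr i')]
      · rintro (rfl | ⟨j, hj, rfl⟩)
        · exact ⟨C.x β.length, by rw [hxl, if_neg (hxr i')]⟩
        · refine ⟨C.r j, ?_⟩
          rw [cls_of_mem C β hβ' (root_mem C β hβ' j), if_neg]
          exact fun h => hj (C.r_inj h)
    rw [himg, card_insert_of_notMem, card_image_of_injective _ C.r_inj,
      card_erase_of_mem (mem_univ _), card_univ, hk]
    · omega
    · simp only [mem_image, not_exists, not_and]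
      intro j _ h
      exact hxr j h.symm
  · intro u hadj
    have h1 := hcl (C.x β.length) u
    have h2 := h1.1 hadj.reachable
    rw [hv1, hw1, hxl, if_neg (hxr i')] at h2
    rcases hcls u with ⟨j, hj⟩ | rfl
    · rw [cls_of_mem C β hβ' hj] at h2
      split_ifs at h2
      · exact hxr _ h2
      · exact hxr _ h2
    · exact hadj.ne rfl

theorem bad_iso [Fintype V] [Fintype ι] (C : Setup V ι) (k : ℕ)
    (hk : Fintype.card ι = k + 1) (γ : List ι) (hγ : γ.length = C.N)
    (L : List (Sym2 V)) (hL : Gr C.x γ 0 (blk0 C) L) (h : k = 0 ∨ ∃ i, i ∉ γ) :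
    Bad k (gr L.toFinset) := by
  have hγ' : γ.length ≤ C.N := hγ.le
  have hf := cls_reach C γ hγ' L hL
  have hcls : ∀ u, ∃ j, u ∈ fb C.x γ 0 (blk0 C) j := by
    intro u
    rcases C.cover u with ⟨j, rfl⟩ | ⟨j, hj, rfl⟩
    · exact ⟨j, root_mem C γ hγ' j⟩
    · refine ⟨γ[j]'(by omega), (mem_fb C γ hγ' _ _).2 (Or.inr ⟨j, ?_, rfl⟩)⟩
      exact List.getElem?_eq_getElem (by omega)
  refine ⟨growth_acyclic C γ hγ' L hL, ?_, ?_⟩
  · rw [card_cc _ _ hf]
    have himg : (univ : Finset V).image (cls C γ) = univ.image C.r := by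
      ext y
      simp only [mem_image, mem_univ, true_and]
      constructor
      · rintro ⟨u, rfl⟩
        obtain ⟨j, hj⟩ := hcls u
        exact ⟨j, (cls_of_mem C γ hγ' hj).symm⟩
      · rintro ⟨j, rfl⟩
        exact ⟨C.r j, cls_of_mem C γ hγ' (root_mem C γ hγ' j)⟩
    rw [himg, card_image_of_injective _ C.r_inj, card_univ, hk]
  · rcases h with h | ⟨i, hi⟩
    · exact Or.inl h
    · right
      refine ⟨C.r i, fun u hadj => ?_⟩
      have h1 := (growth_reach C γ hγ' L hL (C.r i) u).1 hadj.reachable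
      rcases h1 with h1 | ⟨j, h1, h2⟩
      · exact hadj.ne h1
      · have hji : j = i := fb_disj C γ hγ' h1 (root_mem C γ hγ' i)
        subst hji
        rcases (mem_fb C γ hγ' j u).1 h2 with h3 | ⟨l, h3, -⟩
        · exact hadj.ne h3.symm
        · exact hi (List.mem_of_getElem? h3)

end T12

end Pool.Agent.H371R2.CE
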