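import Mathlib
import Pool.Agent.H371R2.CE.Defs

set_option autoImplicit false

/-!
Sizes of the connected components (task T9, helper943).
-/

namespace Pool.Agent.H371R2.CE

open Finset

section T9

variable {V : Type} [Fintype V]

theorem sizes_of_class [DecidableEq V] (G : SimpleGraph V) (f : V → V)
    (hf : ∀ u v, G.Reachable u v ↔ f u = f v) :
    sizes G = (univ.image f).val.map (fun w => (univ.filter (fun v => f v = w)).card) := by
  classical
  let _ : Fintype G.ConnectedComponent := Fintype.ofFinite _
  let φ : G.ConnectedComponent → V := SimpleGraph.ConnectedComponent.lift f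
    (fun v w p _ => (hf v w).1 p.reachable)
  have hφ : ∀ v, φ (G.connectedComponentMk v) = f v := fun v => rfl
  have hinj : Function.Injective φ := by
    intro c d
    refine SimpleGraph.ConnectedComponent.ind₂ (fun u v h => ?_) c d
    rw [hφ, hφ] at h
    exact SimpleGraph.ConnectedComponent.sound ((hf u v).2 h)
  have himg : (univ.image f) = univ.map ⟨φ, hinj⟩ := by
    ext w
    simp only [mem_image, mem_univ, true_and, mem_map, Function.Embedding.coeFn_mk]
    constructor
    · rintro ⟨v, hv⟩
      exact ⟨G.connectedComponentMk v, hv⟩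
    · rintro ⟨c, hc⟩
      induction c using SimpleGraph.ConnectedComponent.ind with
      | h v => exact ⟨v, hc⟩
  have h1 : sizes G = (univ : Finset G.ConnectedComponent).val.map (fun c => c.supp.ncard) := by
    unfold sizes
    congr
  rw [h1, himg, Finset.map_val, Multiset.map_map]
  apply Multiset.map_congr rfl
  intro c _
  induction c using SimpleGraph.ConnectedComponent.ind with
  | h u =>
    rw [Function.comp_apply, ← Set.ncard_coe_finset]
    congr 1
    ext v
    simp only [SimpleGraph.ConnectedComponent.mem_supp_iff, SimpleGraph.ConnectedComponent.eq,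
      coe_filter, mem_univ, true_and, Set.mem_ofPred_eq, Function.Embedding.coeFn_mk, hφ]
    exact hf v u

theorem sizes_card (G : SimpleGraph V) : (sizes G).card = Nat.card G.ConnectedComponent := by
  classical
  let _ : Fintype G.ConnectedComponent := Fintype.ofFinite _
  have h1 : sizes G = (univ : Finset G.ConnectedComponent).val.map (fun c => c.supp.ncard) := by
    unfold sizes
    congr
  rw [h1, Multiset.card_map, Finset.card_val, Finset.card_univ, Nat.card_eq_fintype_card]

theorem sizes_sum (G : SimpleGraph V) : (sizes G).sum = Fintype.card V := by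
  classical
  let _ : Fintype G.ConnectedComponent := Fintype.ofFinite _
  have h1 : sizes G = (univ : Finset G.ConnectedComponent).val.map (fun c => c.supp.ncard) := by
    unfold sizes
    congr
  have h2 : (univ : Finset V).card = ∑ c : G.ConnectedComponent,
      (univ.filter (fun v => G.connectedComponentMk v = c)).card :=
    Finset.card_eq_sum_card_fiberwise (fun v _ => by simp)
  rw [h1, ← Finset.card_univ, h2]
  refine Finset.sum_congr rfl fun c _ => ?_
  rw [← Set.ncard_coe_finset]
  congr 1
  ext v
  simp

theorem t9_mem_sizes (G : SimpleGraph V) (m : ℕ) :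
    m ∈ sizes G ↔ ∃ v, (G.connectedComponentMk v).supp.ncard = m := by
  classical
  unfold sizes
  simp only [Multiset.mem_map, Finset.mem_val, mem_univ, true_and]
  constructor
  · rintro ⟨c, hc⟩
    induction c using SimpleGraph.ConnectedComponent.ind with
    | h v => exact ⟨v, hc⟩
  · rintro ⟨v, hv⟩
    exact ⟨_, hv⟩

theorem sizes_zero (G : SimpleGraph V) : 0 ∉ sizes G := by
  classical
  rw [t9_mem_sizes]
  rintro ⟨v, hv⟩
  rw [Set.ncard_eq_zero] at hv
  have : v ∈ (G.connectedComponentMk v).supp := by simp
  rw [hv] at this
  exact this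

theorem one_mem_sizes (G : SimpleGraph V) : 1 ∈ sizes G ↔ ∃ v, ∀ w, ¬ G.Adj v w := by
  classical
  rw [t9_mem_sizes]
  constructor
  · rintro ⟨v, hv⟩
    refine ⟨v, fun w hw => ?_⟩
    rw [Set.ncard_eq_one] at hv
    obtain ⟨a, ha⟩ := hv
    have h1 : v ∈ (G.connectedComponentMk v).supp := by simp
    have h2 : w ∈ (G.connectedComponentMk v).supp := by
      rw [SimpleGraph.ConnectedComponent.mem_supp_iff, SimpleGraph.ConnectedComponent.eq]
      exact hw.reachable.symm
    rw [ha, Set.mem_singleton_iff] at h1 h2
    exact hw.ne (h1.trans h2.symm)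
  · rintro ⟨v, hv⟩
    refine ⟨v, ?_⟩
    rw [Set.ncard_eq_one]
    refine ⟨v, ?_⟩
    ext w
    rw [SimpleGraph.ConnectedComponent.mem_supp_iff, SimpleGraph.ConnectedComponent.eq,
      Set.mem_singleton_iff]
    constructor
    · intro h
      obtain ⟨p⟩ := h.symm
      cases p with
      | nil => rfl
      | cons hadj _ => exact absurd hadj (hv _)
    · rintro rfl
      exact SimpleGraph.Reachable.refl _

theorem sizes_connected (G : SimpleGraph V) (h : G.Connected) : sizes G = {Fintype.card V} := by
  classical
  obtain ⟨v0⟩ := h.nonempty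
  rw [sizes_of_class G (fun _ => v0) (fun u v => by simp [h.preconnected u v])]
  have e : (univ.image (fun _ : V => v0)) = {v0} := by
    ext w
    simp only [mem_image, mem_univ, true_and, mem_singleton]
    constructor
    · rintro ⟨_, h⟩; exact h.symm
    · intro h; exact ⟨v0, h.symm⟩
  rw [e]
  simp

end T9

end Pool.Agent.H371R2.CE
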