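import Mathlib
import Pool.Agent.H371R2.CE.Defs
import Pool.Agent.H371R2.CE.T9
import Pool.Agent.H371R2.CE.T10b

set_option autoImplicit false

/-!
T13: star lists.
-/

namespace Pool.Agent.H371R2.CE

open Finset


section T13

variable {V : Type} [DecidableEq V] {ι : Type} [DecidableEq ι]

theorem star_list [Fintype V] [Fintype ι] (C : Setup V ι) (b : ι → ℕ)
    (hb : ∑ i, b i + 1 = C.N) (l : List (Sym2 V)) (h : IsStar C b l) :
    (∀ e ∈ l, ¬ e.IsDiag) ∧ ∃ f : V → V, (∀ v, f (f v) = f v) ∧
      gr l.toFinset = starG f ∧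
      sizes (starG f) = 1 ::ₘ (univ : Finset ι).val.map (fun i => b i + 1) := by
  classical
  obtain ⟨t, rfl, hnd, hnr, hcount⟩ := h
  have hinj : ∀ a ∈ t, ∀ a' ∈ t, a.1 = a'.1 → a = a' := fun a ha a' ha' he =>
    List.inj_on_of_nodup_map hnd ha ha' he
  refine ⟨?_, ?_⟩
  · intro e he
    rw [List.mem_map] at he
    obtain ⟨a, ha, rfl⟩ := he
    rw [Sym2.mk_isDiag_iff]
    exact hnr a ha a.2
  set f : V → V := fun v => if h : ∃ a ∈ t, a.1 = v then C.r h.choose.2 else v with hfdef
  have f1 : ∀ a ∈ t, f a.1 = C.r a.2 := by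
    intro a ha
    have hex : ∃ a' ∈ t, a'.1 = a.1 := ⟨a, ha, rfl⟩
    simp only [hfdef]
    rw [dif_pos hex]
    have := hinj _ hex.choose_spec.1 a ha hex.choose_spec.2
    rw [this]
  have f2 : ∀ v, (¬ ∃ a ∈ t, a.1 = v) → f v = v := by
    intro v hv
    simp only [hfdef]
    rw [dif_neg hv]
  have f3 : ∀ i, f (C.r i) = C.r i := by
    intro i
    apply f2
    rintro ⟨a, ha, he⟩
    exact hnr a ha i he
  have f4 : ∀ v, f (f v) = f v := by
    intro v
    by_cases hv : ∃ a ∈ t, a.1 = v
    · obtain ⟨a, ha, rfl⟩ := hv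
      rw [f1 a ha, f3]
    · rw [f2 v hv, f2 v hv]
  refine ⟨f, f4, ?_, ?_⟩
  · ext u w
    unfold gr starG
    rw [SimpleGraph.fromEdgeSet_adj, SimpleGraph.fromRel_adj]
    rw [Finset.mem_coe, List.mem_toFinset, List.mem_map]
    constructor
    · rintro ⟨⟨a, ha, he⟩, hne⟩
      refine ⟨hne, ?_⟩
      rw [Sym2.eq_iff] at he
      rcases he with ⟨h1, h2⟩ | ⟨h1, h2⟩
      · left
        rw [← h1, f1 a ha, h2]
      · right
        rw [← h1, f1 a ha, h2]
    · rintro ⟨hne, he⟩
      refine ⟨?_, hne⟩
      have key : ∀ u w, u ≠ w → f u = w → ∃ a ∈ t, s(a.1, C.r a.2) = s(u, w) := by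
        intro u w hne he
        by_cases hu : ∃ a ∈ t, a.1 = u
        · obtain ⟨a, ha, rfl⟩ := hu
          refine ⟨a, ha, ?_⟩
          rw [← he, f1 a ha]
        · rw [f2 u hu] at he
          exact absurd he hne
      rcases he with he | he
      · exact key u w hne he
      · obtain ⟨a, ha, h1⟩ := key w u hne.symm he
        exact ⟨a, ha, h1.trans Sym2.eq_swap⟩
  · rw [sizes_of_class (starG f) f (starG_class f f4)]
    set F : Finset V := (t.map Prod.fst).toFinset with hF
    have hFmem : ∀ v, v ∈ F ↔ ∃ a ∈ t, a.1 = v := by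
      intro v
      rw [hF, List.mem_toFinset, List.mem_map]
    have hFcard : F.card = ∑ i, b i := by
      rw [hF, List.toFinset_card_of_nodup hnd, List.length_map]
      have h1 : ∑ i : ι, (t.map Prod.snd).count i = (t.map Prod.snd).length := by
        have := Multiset.sum_count_eq_card (s := (univ : Finset ι))
          (m := ((t.map Prod.snd : List ι) : Multiset ι)) (fun a _ => Finset.mem_univ a)
        simpa using this
      rw [List.length_map] at h1
      rw [← h1]
      exact Finset.sum_congr rfl fun i _ => hcount i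
    set X : Finset V := (Finset.range C.N).image C.x with hX
    have hXcard : X.card = C.N := by
      rw [hX, Finset.card_image_of_injOn, Finset.card_range]
      intro j hj j' hj' he
      simp only [Finset.coe_range, Set.mem_Iio] at hj hj'
      exact C.x_inj j j' hj hj' he
    have hFX : F ⊆ X := by
      intro v hv
      obtain ⟨a, ha, rfl⟩ := (hFmem v).1 hv
      rcases C.cover a.1 with ⟨i, hi⟩ | ⟨j, hj, he⟩
      · exact absurd hi (hnr a ha i)
      · rw [hX, Finset.mem_image]
        exact ⟨j, Finset.mem_range.2 hj, he.symm⟩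
    have hone : (X \ F).card = 1 := by
      rw [Finset.card_sdiff_of_subset hFX, hXcard, hFcard]
      omega
    obtain ⟨x0, hx0⟩ := Finset.card_eq_one.1 hone
    have hx0' : x0 ∈ X \ F := by rw [hx0]; exact Finset.mem_singleton_self _
    rw [Finset.mem_sdiff] at hx0'
    have hx0r : ∀ i, x0 ≠ C.r i := by
      intro i he
      have := hx0'.1
      rw [hX, Finset.mem_image] at this
      obtain ⟨j, hj, hj'⟩ := this
      exact C.x_ne_r j i (Finset.mem_range.1 hj) (hj'.trans he)
    have hfx0 : f x0 = x0 := f2 _ (fun h => hx0'.2 ((hFmem _).2 h))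
    have himg : (univ : Finset V).image f = insert x0 ((univ : Finset ι).image C.r) := by
      ext w
      rw [Finset.mem_image, Finset.mem_insert, Finset.mem_image]
      constructor
      · rintro ⟨v, -, rfl⟩
        by_cases hv : ∃ a ∈ t, a.1 = v
        · obtain ⟨a, ha, rfl⟩ := hv
          right
          exact ⟨a.2, Finset.mem_univ _, (f1 a ha).symm⟩
        · rw [f2 v hv]
          rcases C.cover v with ⟨i, hi⟩ | ⟨j, hj, he⟩
          · right
            exact ⟨i, Finset.mem_univ _, hi.symm⟩
          · left
            have : v ∈ X \ F := by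
              rw [Finset.mem_sdiff]
              refine ⟨?_, fun h => hv ((hFmem v).1 h)⟩
              rw [hX, Finset.mem_image]
              exact ⟨j, Finset.mem_range.2 hj, he.symm⟩
            rw [hx0] at this
            exact Finset.mem_singleton.1 this
      · rintro (rfl | ⟨i, -, rfl⟩)
        · exact ⟨w, Finset.mem_univ _, hfx0⟩
        · exact ⟨C.r i, Finset.mem_univ _, f3 i⟩
    have hx0n : x0 ∉ (univ : Finset ι).image C.r := by
      rw [Finset.mem_image]
      rintro ⟨i, -, he⟩
      exact hx0r i he.symm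
    rw [himg, Finset.insert_val_of_notMem hx0n, Finset.image_val_of_injOn C.r_inj.injOn,
      Multiset.map_cons, Multiset.map_map]
    congr 1
    · rw [Finset.card_eq_one]
      refine ⟨x0, ?_⟩
      ext v
      rw [Finset.mem_filter, Finset.mem_singleton]
      constructor
      · rintro ⟨-, he⟩
        by_cases hv : ∃ a ∈ t, a.1 = v
        · obtain ⟨a, ha, rfl⟩ := hv
          rw [f1 a ha] at he
          exact absurd he.symm (hx0r _)
        · rwa [f2 v hv] at he
      · rintro rfl
        exact ⟨Finset.mem_univ _, hfx0⟩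
    · refine Multiset.map_congr rfl fun i _ => ?_
      simp only [Function.comp]
      set Fi : Finset V := ((t.filter (fun a => a.2 = i)).map Prod.fst).toFinset with hFi
      have hFimem : ∀ v, v ∈ Fi ↔ ∃ a ∈ t, a.2 = i ∧ a.1 = v := by
        intro v
        rw [hFi, List.mem_toFinset, List.mem_map]
        constructor
        · rintro ⟨a, ha, rfl⟩
          rw [List.mem_filter] at ha
          exact ⟨a, ha.1, by simpa using ha.2, rfl⟩
        · rintro ⟨a, ha, h2, rfl⟩
          exact ⟨a, List.mem_filter.2 ⟨ha, by simpa using h2⟩, rfl⟩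
      have hset : (univ.filter (fun v => f v = C.r i)) = insert (C.r i) Fi := by
        ext v
        rw [Finset.mem_filter, Finset.mem_insert, hFimem]
        constructor
        · rintro ⟨-, he⟩
          by_cases hv : ∃ a ∈ t, a.1 = v
          · obtain ⟨a, ha, rfl⟩ := hv
            rw [f1 a ha] at he
            right
            exact ⟨a, ha, C.r_inj he, rfl⟩
          · rw [f2 v hv] at he
            exact Or.inl he
        · rintro (rfl | ⟨a, ha, h2, rfl⟩)
          · exact ⟨Finset.mem_univ _, f3 i⟩
          · exact ⟨Finset.mem_univ _, by rw [f1 a ha, h2]⟩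
      have hni : C.r i ∉ Fi := by
        rw [hFimem]
        rintro ⟨a, ha, -, he⟩
        exact hnr a ha i he
      rw [hset, Finset.card_insert_of_notMem hni]
      congr 1
      have hnd2 : ((t.filter (fun a => a.2 = i)).map Prod.fst).Nodup := by
        apply List.Nodup.sublist _ hnd
        exact (List.filter_sublist).map _
      rw [hFi, List.toFinset_card_of_nodup hnd2, List.length_map, ← hcount i, List.count,
        List.countP_map, List.countP_eq_length_filter]
      congr 1

end T13

end Pool.Agent.H371R2.CE
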