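import Mathlib
import Pool.Agent.H371R2.CE.Defs

set_option autoImplicit false

namespace Pool.Agent.H371R2.CE

open Finset
open Pool.Agent.H98R2.Ev (EV toG NE)

section T14

theorem t14_ne_map {E E' : Type} [DecidableEq E] [DecidableEq E'] (f : E ↪ E') {A : Finset E}
    {D : Finset E → Prop} (h : NE A D) :
    ∀ D' : Finset E' → Prop, (∀ S, S ⊆ A → (D S ↔ D' (S.map f))) → NE (A.map f) D' := by
  induction h with
  | const A D hA h =>
    intro D' hD
    refine NE.const _ _ hA.map ?_
    rcases h with h | h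
    · refine Or.inl fun S hS => ?_
      obtain ⟨T, hT, rfl⟩ := subset_map_iff.1 hS
      exact (hD T hT).1 (h T hT)
    · refine Or.inr fun S hS h' => ?_
      obtain ⟨T, hT, rfl⟩ := subset_map_iff.1 hS
      exact h T hT ((hD T hT).2 h')
  | node A D x hx h0 h1 ih0 ih1 =>
    intro D' hD
    refine NE.node _ _ (f x) (mem_map_of_mem _ hx) ?_ ?_
    · rw [← map_erase]
      exact ih0 D' fun S hS => hD S (hS.trans (erase_subset _ _))
    · rw [← map_erase]
      refine ih1 _ fun S hS => ?_
      rw [← map_insert]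
      exact hD _ (insert_subset hx (hS.trans (erase_subset _ _)))

theorem ne_sym2 (n : ℕ) (P : SimpleGraph (Fin n) → Prop)
    (h : NE (univ : Finset (EV (Fin n))) (fun S => ¬ P (toG S))) :
    NE ((univ : Finset (Sym2 (Fin n))).filter (fun e => ¬ e.IsDiag)) (fun S => ¬ P (gr S)) := by
  have h1 : (univ : Finset (EV (Fin n))).map
      (Function.Embedding.subtype (fun e : Sym2 (Fin n) => ¬ e.IsDiag)) =
      (univ : Finset (Sym2 (Fin n))).filter (fun e => ¬ e.IsDiag) := by
    ext e
    rw [mem_map, mem_filter]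
    constructor
    · rintro ⟨a, -, rfl⟩
      exact ⟨mem_univ _, a.2⟩
    · rintro ⟨-, he⟩
      exact ⟨⟨e, he⟩, mem_univ _, rfl⟩
  rw [← h1]
  refine t14_ne_map _ h _ fun S _ => ?_
  have h2 : gr (S.map (Function.Embedding.subtype (fun e : Sym2 (Fin n) => ¬ e.IsDiag))) =
      toG S := by
    unfold gr toG
    congr 1
    ext e
    simp
  rw [h2]

end T14

end Pool.Agent.H371R2.CE
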