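import Mathlib
import Pool.Agent.H371R2.CE.Core
import Pool.Agent.H371R2.CE.T9
import Pool.Agent.H371R2.CE.T10
import Pool.Agent.H371R2.CE.T10b
import Pool.Agent.H371R2.CE.T11
import Pool.Agent.H371R2.CE.T12
import Pool.Agent.H371R2.CE.T13
import Pool.Agent.H371R2.CE.T14
import Pool.Agent.H98R2.Ev.T3
import Pool.Agent.H98R2.Ev.T12a

set_option autoImplicit false

namespace Pool.Agent.H371R2.CE

open Finset Pool.Agent.H98R2.Ev

/-- the standard setup on `Fin n` with `k + 1` roots -/
noncomputable def stdSetup (n k : ℕ) (hn : k + 2 ≤ n) : Setup (Fin n) (Fin (k + 1)) where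
  r i := ⟨i.1, by omega⟩
  x j := if h : k + 1 + j < n then ⟨k + 1 + j, h⟩ else ⟨0, by omega⟩
  N := n - (k + 1)
  r_inj := by
    intro i i' h
    simpa [Fin.ext_iff] using h
  x_inj := by
    intro j j' hj hj' h
    rw [dif_pos (by omega), dif_pos (by omega)] at h
    simpa [Fin.ext_iff] using h
  x_ne_r := by
    intro j i hj h
    rw [dif_pos (by omega)] at h
    simp only [Fin.ext_iff] at h
    omega
  cover := by
    intro v
    by_cases h : v.1 < k + 1
    · left
      exact ⟨⟨v.1, h⟩, by simp⟩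
    · right
      refine ⟨v.1 - (k + 1), by omega, ?_⟩
      rw [dif_pos (by omega)]
      simp only [Fin.ext_iff]
      omega

theorem exists_b (k : ℕ) (s : Multiset ℕ) (hcard : s.card = k + 2) (h1 : 1 ∈ s) (h0 : 0 ∉ s) :
    ∃ b : Fin (k + 1) → ℕ, s = 1 ::ₘ (univ : Finset (Fin (k + 1))).val.map (fun i => b i + 1) := by
  obtain ⟨s', hs'⟩ := Multiset.exists_cons_of_mem h1
  subst hs'
  have hc : s'.toList.length = k + 1 := by
    rw [Multiset.length_toList]
    simpa using hcard
  refine ⟨fun i => s'.toList[i.1]'(by rw [hc]; exact i.2) - 1, ?_⟩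
  congr 1
  have h2 : ∀ i : Fin (k + 1), s'.toList[i.1]'(by rw [hc]; exact i.2) - 1 + 1 =
      s'.toList[i.1]'(by rw [hc]; exact i.2) := by
    intro i
    have hmem : s'.toList[i.1]'(by rw [hc]; exact i.2) ∈ s' := by
      rw [← Multiset.mem_toList]
      exact List.getElem_mem _
    have hne : s'.toList[i.1]'(by rw [hc]; exact i.2) ≠ 0 := by
      intro h
      rw [h] at hmem
      exact h0 (Multiset.mem_cons_of_mem hmem)
    omega
  rw [Multiset.map_congr rfl (fun i _ => h2 i), Fin.univ_val_map]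
  conv_lhs => rw [← Multiset.coe_toList s']
  congr 1
  apply List.ext_getElem
  · simp [hc]
  · intro i h1 h2
    rw [List.getElem_ofFn]

theorem criterion (n k : ℕ) (hn : k + 2 ≤ n) (P : SimpleGraph (Fin n) → Prop)
    (hmono : ∀ G H : SimpleGraph (Fin n), G ≤ H → P G → P H)
    (s : Multiset ℕ) (hcard : s.card = k + 2) (h1 : 1 ∈ s) (h0 : 0 ∉ s) (hsum : s.sum = n)
    (ha : ∀ G : SimpleGraph (Fin n), Bad k G → P G)
    (hb : ∀ f : Fin n → Fin n, (∀ v, f (f v) = f v) → sizes (starG f) = s → ¬ P (starG f)) :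
    EvasiveQ P := by
  intro str hstr
  by_contra hbad
  have hne := ne_sym2 n P (ne_of_strategy n (by omega) P str hstr hbad)
  obtain ⟨b, hs⟩ := exists_b k s hcard h1 h0
  set C := stdSetup n k hn with hC
  have hCN : C.N = n - (k + 1) := rfl
  have hbs : ∑ i, b i + 1 = C.N := by
    have h2 : s.sum = 1 + (∑ i, (b i + 1)) := by
      rw [hs, Multiset.sum_cons]
      rfl
    rw [Finset.sum_add_distrib] at h2
    simp only [Finset.sum_const, Finset.card_univ, Fintype.card_fin, smul_eq_mul, mul_one] at h2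
    omega
  have hrel : ∀ (l : List (Sym2 (Fin n))) (σ : Equiv.Perm (Fin n)), Bad k (gr l.toFinset) →
      P (gr ((l.map (Sym2.map σ)).toFinset)) := by
    intro l σ h
    have h2 : (l.map (Sym2.map σ)).toFinset = l.toFinset.image (Sym2.map σ) := by
      ext e
      simp
    rw [h2, gr_image]
    exact ha _ (bad_map k _ σ h)
  refine core C _ _ hne ?_ b hbs ?_ ?_ ?_ ?_
  · intro S T hTS _ hS hT
    refine hS (hmono _ _ ?_ hT)
    exact SimpleGraph.fromEdgeSet_mono (by exact_mod_cast hTS)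
  · intro v
    simp
  · intro l hl
    obtain ⟨h2, f, hf, hgr, hsz⟩ := star_list C b hbs l hl
    refine ⟨?_, ?_⟩
    · intro e he
      rw [Finset.mem_filter]
      exact ⟨Finset.mem_univ _, h2 e (List.mem_toFinset.1 he)⟩
    · rw [hgr]
      exact hb f hf (by rw [hsz, hs])
  · intro β hβ L hL i i' hii v hv w hw σ
    rw [not_not]
    exact hrel _ σ (bad_cross C k (by simp) β hβ L hL i i' hii v w hv hw)
  · intro γ hγ hi L hL σ
    rw [not_not]
    refine hrel _ σ (bad_iso C k (by simp) γ hγ L hL ?_)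
    rcases hi with hi | hi
    · left
      simpa using hi
    · exact Or.inr hi

theorem forest_star (n : ℕ) (hn : 2 ≤ n) (P : SimpleGraph (Fin n) → Prop)
    (hmono : ∀ G H : SimpleGraph (Fin n), G ≤ H → P G → P H)
    (hbot : ¬ P ⊥) (htree : ∀ T : SimpleGraph (Fin n), T.IsTree → P T)
    (hf : ∀ G : SimpleGraph (Fin n), G.IsAcyclic → (∃ v, ∀ w, ¬ G.Adj v w) → ¬ P G →
      ∀ f : Fin n → Fin n, (∀ v, f (f v) = f v) → sizes (starG f) = sizes G →
      ¬ P (starG f)) : EvasiveQ P := by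
  classical
  have : Nonempty (Fin n) := ⟨⟨0, by omega⟩⟩
  have hex : ∃ c : ℕ, ∃ G : SimpleGraph (Fin n), G.IsAcyclic ∧ 1 ∈ sizes G ∧ ¬ P G ∧
      (sizes G).card = c := by
    refine ⟨_, ⊥, SimpleGraph.isAcyclic_bot, ?_, hbot, rfl⟩
    rw [one_mem_sizes]
    exact ⟨⟨0, by omega⟩, fun w h => h⟩
  obtain ⟨G0, hG0, h1, hP0, hc⟩ := Nat.find_spec hex
  have hmin : ∀ G : SimpleGraph (Fin n), G.IsAcyclic → 1 ∈ sizes G → ¬ P G →
      Nat.find hex ≤ (sizes G).card := fun G a b c => Nat.find_min' hex ⟨G, a, b, c, rfl⟩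
  set c := Nat.find hex with hcdef
  have hsum : (sizes G0).sum = n := by rw [sizes_sum]; simp
  have hpos : c ≠ 0 := by
    intro h
    rw [h, Multiset.card_eq_zero] at hc
    rw [hc] at h1
    simp at h1
  have hne1 : c ≠ 1 := by
    intro h
    rw [h, Multiset.card_eq_one] at hc
    obtain ⟨a, ha⟩ := hc
    rw [ha] at h1 hsum
    simp at h1 hsum
    omega
  obtain ⟨k, hk⟩ : ∃ k, c = k + 2 := ⟨c - 2, by omega⟩
  have hkn : k + 2 ≤ n := by
    have h2 : (sizes G0).card • 1 ≤ (sizes G0).sum := by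
      apply Multiset.card_nsmul_le_sum
      intro x hx
      have : x ≠ 0 := fun h => sizes_zero G0 (h ▸ hx)
      omega
    rw [hsum, hc, hk] at h2
    simpa using h2
  refine criterion n k hkn P hmono (sizes G0) (by rw [hc, hk]) h1 (sizes_zero G0) hsum ?_ ?_
  · rintro G ⟨hac, hcc, hor⟩
    by_contra hPG
    rcases Nat.eq_zero_or_pos k with hk0 | hk0
    · apply hPG
      apply htree
      refine ⟨?_, hac⟩
      subst hk0
      have h3 : Nat.card G.ConnectedComponent = 1 := by simpa using hcc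
      rw [Nat.card_eq_one_iff_unique] at h3
      obtain ⟨hsub, _⟩ := h3
      rw [SimpleGraph.connected_iff]
      refine ⟨fun u v => ?_, inferInstance⟩
      exact SimpleGraph.ConnectedComponent.eq.1 (Subsingleton.elim _ _)
    · rcases hor with h | h
      · omega
      · have h4 := hmin G hac ((one_mem_sizes G).2 h) hPG
        rw [sizes_card, hcc] at h4
        omega
  · intro f hff hsz
    exact hf G0 hG0 ((one_mem_sizes G0).1 h1) hP0 f hff hsz

theorem forest_sizes (n : ℕ) (hn : 2 ≤ n) (P : SimpleGraph (Fin n) → Prop)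
    (hmono : ∀ G H : SimpleGraph (Fin n), G ≤ H → P G → P H)
    (hbot : ¬ P ⊥) (htree : ∀ T : SimpleGraph (Fin n), T.IsTree → P T)
    (hf : ∀ G H : SimpleGraph (Fin n), G.IsAcyclic → H.IsAcyclic → sizes G = sizes H →
      P G → P H) : EvasiveQ P := by
  apply forest_star n hn P hmono hbot htree
  intro G hG _ hPG f hff hsz hP
  exact hPG (hf _ _ (starG_acyclic f hff) hG hsz hP)

theorem component_sizes (n : ℕ) (hn : 2 ≤ n) (P : SimpleGraph (Fin n) → Prop)
    (hmono : ∀ G H : SimpleGraph (Fin n), G ≤ H → P G → P H)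
    (hsz : ∀ G H : SimpleGraph (Fin n), sizes G = sizes H → P G → P H)
    (h1 : ∃ G, P G) (h2 : ∃ G, ¬ P G) : EvasiveQ P := by
  have : Nonempty (Fin n) := ⟨⟨0, by omega⟩⟩
  apply forest_sizes n hn P hmono
  · intro h
    obtain ⟨G, hG⟩ := h2
    exact hG (hmono _ _ bot_le h)
  · intro T hT
    obtain ⟨G, hG⟩ := h1
    apply hsz ⊤ T _ (hmono _ _ le_top hG)
    rw [sizes_connected _ hT.1, sizes_connected]
    exact SimpleGraph.connected_top
  · intro G H _ _ h hG
    exact hsz G H h hG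

theorem evasive_dual {n : ℕ} (P : SimpleGraph (Fin n) → Prop)
    (h : EvasiveQ (fun G => ¬ P Gᶜ)) : EvasiveQ P := by
  intro s hs
  exact dual_strategy n P (fun s' hs' => h s' hs') s hs

end Pool.Agent.H371R2.CE
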