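import Mathlib
import Pool.Agent.H371R2.CE.Defs

set_option autoImplicit false

/-!
Alternating functions on lists.
-/

namespace Pool.Agent.H371R2.CE

open Finset

section T1

variable {α : Type} [DecidableEq α]

theorem Alt.move {g : List α → ℚ} (h : Alt g) (p l q : List α) (a : α) :
    g (p ++ a :: (l ++ q)) = (-1) ^ l.length * g (p ++ (l ++ a :: q)) := by
  induction l generalizing p with
  | nil => simp
  | cons b l ih =>
    have h1 : g (p ++ a :: (b :: l ++ q)) = - g (p ++ b :: a :: (l ++ q)) := h p (l ++ q) a b
    have h2 := ih (p ++ [b])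
    simp only [List.append_assoc, List.singleton_append] at h2
    rw [h1, h2]
    simp only [List.length_cons, List.cons_append]
    ring

theorem Alt.exch {g : List α → ℚ} (h : Alt g) (p l q : List α) (a b : α) :
    g (p ++ a :: (l ++ b :: q)) = - g (p ++ b :: (l ++ a :: q)) := by
  have h1 := Alt.move h p l (b :: q) a
  have h2 := Alt.move h p l (a :: q) b
  have h3 : g (p ++ (l ++ a :: b :: q)) = - g (p ++ (l ++ b :: a :: q)) := by
    have := h (p ++ l) q a b
    simpa only [List.append_assoc] using this
  rw [h1, h2, h3]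
  ring

theorem Alt.dup {g : List α → ℚ} (h : Alt g) (l : List α) (hl : ¬ l.Nodup) : g l = 0 := by
  have key : ∀ l : List α, ¬ l.Nodup → ∃ (p m q : List α) (a : α), l = p ++ a :: (m ++ a :: q) := by
    intro l
    induction l with
    | nil => intro h; exact absurd List.nodup_nil h
    | cons b l ih =>
      intro h
      rw [List.nodup_cons] at h
      by_cases hb : b ∈ l
      · obtain ⟨m, q, hmq⟩ := List.append_of_mem hb
        exact ⟨[], m, q, b, by rw [hmq]; rfl⟩
      · have : ¬ l.Nodup := fun hn => h ⟨hb, hn⟩
        obtain ⟨p, m, q, a, e⟩ := ih this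
        exact ⟨b :: p, m, q, a, by rw [e]; rfl⟩
  obtain ⟨p, m, q, a, e⟩ := key l hl
  have h1 := Alt.exch h p m q a a
  rw [← e] at h1
  linarith

end T1

end Pool.Agent.H371R2.CE
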